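import Pool.Agent.H32.T4.B8
import Pool.Agent.H32.T3.D10

/-!
# Translates of a point with algebraic invariant: evaluation of the families
-/

open UpperHalfPlane hiding I
open Complex EisensteinSeries ModularForm MatrixGroups
open scoped Real

namespace H32.T5

open Height Height.AdmissibleAbsValues Finset NumberField H32.T3

/-- Evaluation at translates by integral matrices. -/
lemma rat_eval {a b c d : ℤ} {N : ℕ} (hN : 0 < N) (hdet' : (N : ℤ) = a * d - b * c) (τ τ' : ℍ)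
    (h : (τ' : ℂ) = (a * τ + b) / (c * τ + d)) : ∃ s ∈ SN N,
      xP N (toM s) τ = ((N : ℂ) / (c * τ + d)) ^ 4 * E₄ τ' * E₄ τ ^ 2 ∧
      xQ N (toM s) τ = ((N : ℂ) / (c * τ + d)) ^ 6 * E₆ τ' * E₆ τ ∧
      xT N (toM s) τ = (((N : ℂ) / (c * τ + d)) ^ 2 * E2s τ' - N * E2s τ) * (E₄ τ * E₆ τ) := by
  set g : Matrix (Fin 2) (Fin 2) ℤ := !![a, b; c, d] with hg
  have hdet : g.det = N := by
    rw [hg, Matrix.det_fin_two_of, hdet']
  have hN' : (0 : ℤ) < N := by exact_mod_cast hN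
  have hpos : 0 < g.det := hdet ▸ hN'
  have hden : denom (toG g) τ = c * τ + d := by
    rw [denom, toG_val hpos]
    simp [hg]
  have hfix : toG g • τ = τ' := by
    have h1 : 0 < (toG g).det.val := by
      rw [Matrix.GeneralLinearGroup.val_det_apply, det_toG hpos]; exact_mod_cast hpos
    ext
    rw [coe_smul_of_det_pos h1, hden, num, toG_val hpos, h]
    simp [hg]
  have hHA : ∀ (F : ℍ → ℂ) (k : ℕ), HA F k N g τ = ((N : ℂ) / (c * τ + d)) ^ k * F τ' := by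
    intro F k
    unfold HA
    rw [hfix, hden]
  obtain ⟨s, hs, γ, hγ⟩ := H32.exists_rep hN g hdet
  obtain ⟨ha', hd'⟩ := SN_pos hN hs
  have hposM := det_toM_pos ha' hd'
  have hHA2 : ∀ (F : ℍ → ℂ) (k : ℕ), WInv F k →
      HA F k N (toM s) τ = ((N : ℂ) / (c * τ + d)) ^ k * F τ' := by
    intro F k hF
    rw [← hHA F k, hγ, HA_left hF hposM]
  refine ⟨s, hs, ?_, ?_, ?_⟩
  · rw [xP, hHA2 _ _ WInv_E4]
  · rw [xQ, hHA2 _ _ WInv_E6]
  · rw [xT, hHA2 _ _ WInv_E2s]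

/-- The translate. -/
noncomputable def mob (a b c d y : ℂ) : ℂ := (a * y + b) / (c * y + d)

/-- The quotient of the weight two quantities. -/
noncomputable def wY (a b c d y : ℂ) : ℂ :=
  (a * d - b * c) / (c * y + d) ^ 2 * (e6 (mob a b c d y) / e4 (mob a b c d y)) * (e4 y / e6 y)

/-- The difference of the weight two quantities. -/
noncomputable def xY (a b c d y : ℂ) : ℂ :=
  (a * d - b * c) / (c * y + d) ^ 2 * e2 (mob a b c d y) * (e4 y / e6 y) - ps y -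
    12 * c / ((c * y + d) * Wf y)

lemma im_mobC {a b c d : ℝ} {y : ℂ} (hy : 0 < y.im) (h : 0 < a * d - b * c) :
    (c : ℂ) * y + d ≠ 0 ∧ ((mob a b c d y).im : ℝ) = (a * d - b * c) * y.im /
      Complex.normSq (c * y + d) ∧ 0 < (mob a b c d y).im := by
  have hcd : c ≠ 0 ∨ d ≠ 0 := by
    by_contra hcon
    push Not at hcon
    rw [hcon.1, hcon.2] at h
    simp at h
  have h1 := H32.T4.den_ne_real hcd hy
  refine ⟨h1, ?_, H32.T4.im_mob_pos h hy⟩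
  have h2 := H32.T4.im_mob (a := a) (b := b) h1
  exact h2

lemma im_key {a b c d : ℤ} {N : ℕ} (hN : 0 < N) (hdet : (N : ℤ) = a * d - b * c) (τ τ' : ℍ)
    (h : (τ' : ℂ) = (a * τ + b) / (c * τ + d)) : (c : ℂ) * τ + d ≠ 0 ∧
      ((N : ℂ) / (c * τ + d)) ^ 2 * (3 / (π * (τ'.im : ℂ))) =
        3 * N / (π * (τ.im : ℂ)) - 6 * Complex.I * N * c / (π * (c * τ + d)) := by
  have hNr : (N : ℝ) = a * d - b * c := by exact_mod_cast congrArg (fun z : ℤ ↦ (z : ℝ)) hdet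
  have hNpos : (0 : ℝ) < (a : ℝ) * (d : ℝ) - (b : ℝ) * (c : ℝ) := by
    rw [← hNr]; exact_mod_cast hN
  have h1 : ((c : ℝ) : ℂ) * (τ : ℂ) + ((d : ℝ) : ℂ) ≠ 0 := (im_mobC τ.im_pos hNpos).1
  have h2 := H32.T4.im_mob (a := a) (b := b) h1
  push_cast at h1 h2
  refine ⟨h1, ?_⟩
  rw [← h, ← hNr] at h2
  have h3 : (τ'.im : ℂ) * ((c * τ + d) * (c * τ + d - 2 * Complex.I * c * (τ.im : ℂ))) =
      N * (τ.im : ℂ) := by
    have h4 : (c * (τ : ℂ) + d) * (c * (τ : ℂ) + d - 2 * Complex.I * c * (τ.im : ℂ)) =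
        ((Complex.normSq (c * (τ : ℂ) + d) : ℝ) : ℂ) := by
      rw [← Complex.mul_conj]
      congr 1
      rw [map_add, map_mul, map_intCast, map_intCast]
      have h5 : (starRingEnd ℂ) (τ : ℂ) = τ - 2 * Complex.I * (τ.im : ℂ) := by
        have h6 := Complex.sub_conj (τ : ℂ)
        rw [UpperHalfPlane.coe_im] at h6
        push_cast at h6
        linear_combination -h6
      rw [h5]
      ring
    rw [h4]
    have h7 : 0 < Complex.normSq (c * (τ : ℂ) + d) := Complex.normSq_pos.mpr h1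
    have h8 : τ'.im * Complex.normSq (c * (τ : ℂ) + d) = N * τ.im := by
      rw [← UpperHalfPlane.coe_im τ', h2, UpperHalfPlane.coe_im, div_mul_cancel₀ _ h7.ne']
    exact_mod_cast congrArg (fun z : ℝ ↦ (z : ℂ)) h8
  have hpi : (π : ℂ) ≠ 0 := by exact_mod_cast Real.pi_ne_zero
  have hy : (τ.im : ℂ) ≠ 0 := by exact_mod_cast τ.im_pos.ne'
  have hy' : (τ'.im : ℂ) ≠ 0 := by exact_mod_cast τ'.im_pos.ne'
  have hN0 : (N : ℂ) ≠ 0 := by exact_mod_cast hN.ne'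
  rw [div_pow, div_mul_div_comm, div_sub_div _ _ (mul_ne_zero hpi hy) (mul_ne_zero hpi h1),
    div_eq_div_iff (mul_ne_zero (pow_ne_zero 2 h1) (mul_ne_zero hpi hy'))
      (mul_ne_zero (mul_ne_zero hpi hy) (mul_ne_zero hpi h1))]
  linear_combination (-3 * (N : ℂ) * (π : ℂ) ^ 2 * (c * (τ : ℂ) + d)) * h3

/-- The three quantities in terms of the roots. -/
lemma orb_formula {a b c d : ℤ} {N : ℕ} (hN : 0 < N) (hdet : (N : ℤ) = a * d - b * c) (τ τ' : ℍ)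
    (h : (τ' : ℂ) = (a * τ + b) / (c * τ + d)) (h4 : E₄ τ ≠ 0) (h6 : E₆ τ ≠ 0) {P Q T : ℂ}
    (hP : P = ((N : ℂ) / (c * τ + d)) ^ 4 * E₄ τ' * E₄ τ ^ 2 / discriminant τ)
    (hQ : Q = ((N : ℂ) / (c * τ + d)) ^ 6 * E₆ τ' * E₆ τ / discriminant τ)
    (hT : T = (((N : ℂ) / (c * τ + d)) ^ 2 * E2s τ' - N * E2s τ) * (E₄ τ * E₆ τ) /
      discriminant τ) :
    jc τ' = 1728 * (P ^ 3 * (jf τ - 1728)) / (P ^ 3 * (jf τ - 1728) - Q ^ 2 * jf τ ^ 2) ∧
    wY a b c d τ = Q / P / N * (jf τ / (jf τ - 1728)) ∧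
    xY a b c d τ = T / (N * (jf τ - 1728)) := by
  obtain ⟨h1, hkey⟩ := im_key hN hdet τ τ' h
  have hΔ := discriminant_ne_zero τ
  have hj := jf_sub τ
  have hj2 := jf_mul τ
  have hJ1728 : jf τ - 1728 ≠ 0 := by
    intro h0
    rw [h0, zero_mul] at hj
    exact pow_ne_zero 2 h6 hj.symm
  have hJ0 : jf τ ≠ 0 := by
    intro h0
    rw [h0, zero_mul] at hj2
    exact pow_ne_zero 3 h4 hj2.symm
  have hN0 : (N : ℂ) ≠ 0 := by exact_mod_cast hN.ne'
  have hmob : mob a b c d τ = τ' := h.symm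
  have hNc : (a : ℂ) * d - b * c = N := by
    have := congrArg (fun z : ℤ ↦ (z : ℂ)) hdet
    push_cast at this
    exact this.symm
  have g2 : e2 τ' = E2 τ' := by rw [e2, ofComplex_apply]
  have g4 : e4 τ' = E₄ τ' := by rw [e4, ofComplex_apply]
  have g6 : e6 τ' = E₆ τ' := by rw [e6, ofComplex_apply]
  have k2 : e2 τ = E2 τ := by rw [e2, ofComplex_apply]
  have k4 : e4 τ = E₄ τ := by rw [e4, ofComplex_apply]
  have k6 : e6 τ = E₆ τ := by rw [e6, ofComplex_apply]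
  have hJ : jf τ = E₄ τ ^ 3 / discriminant τ := by rw [eq_div_iff hΔ]; exact hj2
  have hJ' : jf τ - 1728 = E₆ τ ^ 2 / discriminant τ := by rw [eq_div_iff hΔ]; exact hj
  refine ⟨?_, ?_, ?_⟩
  · have hd := disc_ne (w := (τ' : ℂ))
    have e1 : P ^ 3 * (jf τ - 1728) - Q ^ 2 * jf τ ^ 2 = (e4 τ' ^ 3 - e6 τ' ^ 2) *
        (((N : ℂ) / (c * τ + d)) ^ 12 * E₄ τ ^ 6 * E₆ τ ^ 2 / discriminant τ ^ 4) := by
      rw [hJ', hJ, hP, hQ, g4, g6]
      field_simp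
      try ring
    have e2 : P ^ 3 * (jf τ - 1728) = e4 τ' ^ 3 *
        (((N : ℂ) / (c * τ + d)) ^ 12 * E₄ τ ^ 6 * E₆ τ ^ 2 / discriminant τ ^ 4) := by
      rw [hJ', hP, g4]
      field_simp
      try ring
    have e3 : ((N : ℂ) / (c * τ + d)) ^ 12 * E₄ τ ^ 6 * E₆ τ ^ 2 / discriminant τ ^ 4 ≠ 0 := by
      have := div_ne_zero hN0 h1
      positivity
    rw [e1, e2, jc, ← mul_assoc, mul_div_mul_right _ _ e3]
  · rw [wY, hmob, hNc, hP, hQ, hJ', hJ, g4, g6, k4, k6]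
    field_simp
  · rw [xY, hmob, hNc, hT, hJ', ps, Wf, g2, k2, k4, k6, E2s, E2s]
    have hpi : (π : ℂ) ≠ 0 := by exact_mod_cast Real.pi_ne_zero
    have hI := Complex.I_ne_zero
    have hy : (τ.im : ℂ) ≠ 0 := by exact_mod_cast τ.im_pos.ne'
    have hy' : (τ'.im : ℂ) ≠ 0 := by exact_mod_cast τ'.im_pos.ne'
    have e1 : (((N : ℂ) / (c * τ + d)) ^ 2 * (E2 τ' - 3 / (π * (τ'.im : ℂ))) -
        N * (E2 τ - 3 / (π * (τ.im : ℂ)))) = ((N : ℂ) / (c * τ + d)) ^ 2 * E2 τ' - N * E2 τ +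
          6 * Complex.I * N * c / (π * (c * τ + d)) := by
      linear_combination -hkey
    rw [e1]
    field_simp
    linear_combination (-12 * (c : ℂ) * (c * (τ : ℂ) + d)) * Complex.I_sq

end H32.T5
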