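import Pool.Agent.H32.T5.Y1

/-!
# Families of algebraic numbers with controlled degree and height
-/

open UpperHalfPlane hiding I
open Complex EisensteinSeries ModularForm MatrixGroups
open scoped Real

namespace H32.T5

open Height Height.AdmissibleAbsValues Finset NumberField H32.T3

/-- Values in a number field with bounds. -/
def NFd {ι : Type} (A H : ℕ) (v : ι → ℂ) : Prop :=
  ∃ K : IntermediateField ℚ ℂ, FiniteDimensional ℚ K ∧ Module.finrank ℚ K ≤ H ^ A ∧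
    ∀ (L : Type) [Field L] [NumberField L] (σ : L →+* ℂ), (∀ x ∈ K, ∃ y, σ y = x) →
      ∃ u : ι → L, (∀ i, σ (u i) = v i) ∧ ∀ i, HB ((H : ℝ) ^ A) (u i)

section NFd

variable {ι κ : Type}

lemma NFd.mono {A A' H : ℕ} {v : ι → ℂ} (h : NFd A H v) (hA : A ≤ A') (hH : 1 ≤ H) :
    NFd A' H v := by
  obtain ⟨K, h1, h2, h3⟩ := h
  refine ⟨K, h1, h2.trans (Nat.pow_le_pow_right hH hA), fun L _ _ σ hσ ↦ ?_⟩
  obtain ⟨u, h4, h5⟩ := h3 L σ hσ
  exact ⟨u, h4, fun i ↦ (h5 i).mono (pow_le_pow_right₀ (by exact_mod_cast hH) hA)⟩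

lemma NFd.comp {A H : ℕ} {v : ι → ℂ} (h : NFd A H v) (f : κ → ι) : NFd A H (fun k ↦ v (f k)) := by
  obtain ⟨K, h1, h2, h3⟩ := h
  refine ⟨K, h1, h2, fun L _ _ σ hσ ↦ ?_⟩
  obtain ⟨u, h4, h5⟩ := h3 L σ hσ
  exact ⟨fun k ↦ u (f k), fun k ↦ h4 _, fun k ↦ h5 _⟩

lemma NFd.prod {A H n : ℕ} (hH : 1 ≤ H) {v : Fin n → κ → ℂ} (h : ∀ i, NFd A H (v i)) :
    NFd (A * (n + 1)) H (fun p : Fin n × κ ↦ v p.1 p.2) := by
  choose K f q l using h
  obtain ⟨g1, g2⟩ := finrank_fsup univ K (fun i _ ↦ f i)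
  refine ⟨univ.sup K, g1, ?_, fun L _ _ σ hσ ↦ ?_⟩
  · refine g2.trans ?_
    calc ∏ i, Module.finrank ℚ (K i) ≤ ∏ _i : Fin n, H ^ A :=
          prod_le_prod (fun _ _ ↦ Nat.zero_le _) fun i _ ↦ q i
      _ = H ^ (A * n) := by rw [prod_const, card_univ, Fintype.card_fin, ← pow_mul]
      _ ≤ _ := Nat.pow_le_pow_right hH (Nat.mul_le_mul_left _ (by omega))
  · have hle : ∀ i, K i ≤ univ.sup K := fun i ↦ Finset.le_sup (f := K) (mem_univ i)
    have e1 := fun i ↦ l i L σ (fun x hx ↦ hσ x (hle i hx))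
    choose u h1 h2 using e1
    refine ⟨fun p ↦ u p.1 p.2, fun p ↦ h1 _ _, fun p ↦ (h2 _ _).mono ?_⟩
    exact pow_le_pow_right₀ (by exact_mod_cast hH) (Nat.le_mul_of_pos_right _ (by omega))

lemma NFd.sum {A A' H : ℕ} (hH : 1 ≤ H) {v : ι → ℂ} {v' : κ → ℂ} (h : NFd A H v)
    (h' : NFd A' H v') : NFd (A + A') H (Sum.elim v v') := by
  obtain ⟨K, h1, h2, h3⟩ := h
  obtain ⟨K', h1', h2', h3'⟩ := h'
  refine ⟨K ⊔ K', IntermediateField.finiteDimensional_sup _ _, ?_, fun L _ _ σ hσ ↦ ?_⟩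
  · rw [pow_add]
    exact (IntermediateField.finrank_sup_le _ _).trans (Nat.mul_le_mul h2 h2')
  · obtain ⟨u, h4, h5⟩ := h3 L σ (fun x hx ↦ hσ x (le_sup_left (a := K) hx))
    obtain ⟨u', h4', h5'⟩ := h3' L σ (fun x hx ↦ hσ x (le_sup_right (a := K) hx))
    have hr : (1 : ℝ) ≤ H := by exact_mod_cast hH
    refine ⟨Sum.elim u u', ?_, ?_⟩
    · rintro (i | i)
      · exact h4 i
      · exact h4' i
    · rintro (i | i)
      · exact (h5 i).mono (pow_le_pow_right₀ hr (by omega))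
      · exact (h5' i).mono (pow_le_pow_right₀ hr (by omega))

lemma NFd.rat {m q H : ℕ} {p : Fin m → ℤ} (hH : 2 ≤ H) (hq : q ≤ H) (hp : ∀ s, |p s| ≤ H) :
    NFd 2 H (fun s ↦ (p s : ℂ) / q) := by
  refine ⟨⊥, inferInstance, ?_, fun L _ _ σ _ ↦ ⟨fun s ↦ ((p s : ℤ) : L) / ((q : ℤ) : L),
    fun s ↦ ?_, fun s ↦ ((HB.int (p s)).div (HB.int q)).mono ?_⟩⟩
  · rw [IntermediateField.finrank_bot]
    exact Nat.one_le_pow _ _ (by omega)
  · rw [map_div₀, map_intCast, map_intCast]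
    push_cast
    rfl
  · have h1 : |((p s : ℤ) : ℝ)| ≤ H := by exact_mod_cast hp s
    have h2 : |(((q : ℤ)) : ℝ)| ≤ H := by
      push_cast
      rw [Nat.abs_cast]
      exact_mod_cast hq
    have h3 : (2 : ℝ) ≤ H := by exact_mod_cast hH
    nlinarith

lemma exists_pow_bound (x : ℝ) : ∃ k : ℕ, ∀ H : ℕ, 2 ≤ H → x ≤ (H : ℝ) ^ k := by
  refine ⟨⌈x⌉₊, fun H hH ↦ ?_⟩
  have h1 : x ≤ (⌈x⌉₊ : ℝ) := Nat.le_ceil x
  have h2 : (⌈x⌉₊ : ℝ) ≤ 2 ^ ⌈x⌉₊ := by exact_mod_cast (Nat.lt_two_pow_self (n := ⌈x⌉₊)).le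
  have h3 : (2 : ℝ) ≤ H := by exact_mod_cast hH
  calc x ≤ 2 ^ ⌈x⌉₊ := h1.trans h2
    _ ≤ _ := by gcongr

lemma NFd.const {x : ℂ} (hx : IsAlgebraic ℤ x) : ∃ A, ∀ H : ℕ, 2 ≤ H →
    NFd A H (fun _ : Unit ↦ x) := by
  obtain ⟨P, hP0, hP⟩ := hx
  obtain ⟨K, -, hK2, hK3, hK4⟩ := one_step_int ⊥ x P hP0 hP
  obtain ⟨k1, hk1⟩ := exists_pow_bound (P.natDegree + nr P)
  have hn : 0 ≤ nr P := (nr_nonneg P)
  refine ⟨k1, fun H hH ↦ ⟨K, hK3, ?_, fun L _ _ σ hσ ↦ ?_⟩⟩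
  · rw [IntermediateField.finrank_bot, one_mul] at hK4
    refine hK4.trans ?_
    have h1 := hk1 H hH
    have h2 : (P.natDegree : ℝ) ≤ (H : ℝ) ^ k1 := by linarith
    exact_mod_cast h2
  · obtain ⟨y, hy⟩ := hσ x hK2
    refine ⟨fun _ ↦ y, fun _ ↦ hy, fun _ ↦ ?_⟩
    have hxa : ∀ (i : Fin 0), HB (0 : ℝ) ((fun _ ↦ 0 : Fin 0 → L) i) := fun i ↦ i.elim0
    have h := HB.root (n := P.natDegree) hxa (fun j ↦ MvPolynomial.C (P.coeff j)) (D := 0)
      (fun j ↦ by rw [MvPolynomial.totalDegree_C]) (B := 1 + nr P)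
      (by linarith) (fun j ↦ by
        rw [nrm_C]
        exact (coeff_le_nr P j).trans (by linarith)) y ?_ ?_
    · refine h.mono ?_
      have h1 : Real.log (1 + nr P) ≤ nr P := by
        have := Real.log_le_sub_one_of_pos (show 0 < 1 + nr P by linarith)
        linarith
      have h2 := hk1 H hH
      simp only [mul_zero, add_zero]
      linarith
    · rw [MvPolynomial.aeval_C, algebraMap_int_eq, eq_intCast, Int.cast_ne_zero]
      exact Polynomial.leadingCoeff_ne_zero.mpr hP0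
    · apply σ.injective
      rw [map_zero, map_sum, ← hP, Polynomial.aeval_eq_sum_range]
      refine sum_congr rfl fun i _ ↦ ?_
      rw [MvPolynomial.aeval_C, algebraMap_int_eq, eq_intCast, map_mul, map_pow, hy, map_intCast,
        zsmul_eq_mul]

/-- Liouville inequality. -/
lemma NFd.liouville [Fintype ι] (A : ℕ) (G : MvPolynomial ι ℤ) :
    ∃ C : ℝ, 0 ≤ C ∧ ∀ (H : ℕ) (v : ι → ℂ), 2 ≤ H → NFd A H v →
    MvPolynomial.aeval v G = 0 ∨
      Real.exp (-(C * (H : ℝ) ^ (2 * A))) ≤ ‖MvPolynomial.aeval v G‖ := by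
  refine ⟨Real.log (max 1 (nrm G)) + Fintype.card ι * G.totalDegree, ?_, ?_⟩
  · have := Real.log_nonneg (le_max_left 1 (nrm G))
    positivity
  intro H v hH hv
  obtain ⟨K, hK, hKA, hL⟩ := hv
  have hNF : NumberField K := { to_charZero := inferInstance, to_finiteDimensional := hK }
  obtain ⟨u, hu, hub⟩ := hL K (algebraMap K ℂ) (fun x hx ↦ ⟨⟨x, hx⟩, rfl⟩)
  have hval : algebraMap K ℂ (MvPolynomial.aeval u G) = MvPolynomial.aeval v G := by
    have h5 := MvPolynomial.comp_aeval_apply u (algebraMap K ℂ).toIntAlgHom G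
    have h6 : (fun i ↦ (algebraMap K ℂ).toIntAlgHom (u i)) = v := by
      ext x
      exact hu x
    rw [h6] at h5
    exact h5
  by_cases h0 : MvPolynomial.aeval v G = 0
  · exact Or.inl h0
  right
  have hy : MvPolynomial.aeval u G ≠ 0 := by
    intro h5
    rw [h5, map_zero] at hval
    exact h0 hval.symm
  have h5 := H32.T3.liouville (algebraMap K ℂ) hy
  rw [hval] at h5
  refine le_trans ?_ h5
  have h6 := HB.aeval hub G le_rfl (le_max_left 1 (nrm G)) (le_max_right _ _)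
  unfold HB at h6
  have hH1 : (1 : ℝ) ≤ (H : ℝ) ^ A := by
    apply one_le_pow₀
    have : (2 : ℝ) ≤ H := by exact_mod_cast hH
    linarith
  have hd : (totalWeight K : ℝ) ≤ (H : ℝ) ^ A := by
    rw [totalWeight_eq_finrank]
    exact_mod_cast hKA
  have hlog := Real.log_nonneg (le_max_left 1 (nrm G))
  have h7 : logHeight₁ (MvPolynomial.aeval u G) ≤
      (Real.log (max 1 (nrm G)) + Fintype.card ι * G.totalDegree) * (H : ℝ) ^ (2 * A) := by
    refine h6.trans ?_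
    have h8 : (H : ℝ) ^ (2 * A) = (H : ℝ) ^ A * (H : ℝ) ^ A := by ring
    rw [h8, ← mul_assoc]
    have h9 : Real.log (max 1 (nrm G)) + Fintype.card ι * G.totalDegree * (H : ℝ) ^ A ≤
        (Real.log (max 1 (nrm G)) + Fintype.card ι * G.totalDegree) * (H : ℝ) ^ A := by
      rw [add_mul]
      have := le_mul_of_one_le_right hlog hH1
      linarith
    gcongr
  rw [Real.exp_neg]
  apply inv_anti₀ (mulHeight₁_pos _)
  rw [logHeight₁_eq_log_mulHeight₁, Real.log_le_iff_le_exp (mulHeight₁_pos _)] at h7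
  exact h7

/-- Adjoining a root. -/
lemma NFd.root [Fintype ι] (A : ℕ) (G : ℕ → MvPolynomial ι ℤ) (m : ℕ) : ∃ C1 : ℕ,
    ∀ (H : ℕ) (v : ι → ℂ), 2 ≤ H → NFd A H v → MvPolynomial.aeval v (G m) ≠ 0 → ∀ ρ : ℂ,
    ∑ i ∈ range (m + 1), MvPolynomial.aeval v (G i) * ρ ^ i = 0 →
    ∃ (L : Type) (_ : Field L) (_ : NumberField L) (s : L →+* ℂ) (u : ι → L) (x : L),
      (∀ i, s (u i) = v i) ∧ s x = 3 / 2 * ρ ∧
      totalWeight L ≤ C1 * H ^ (2 * A) ∧
      (∀ i, mulHeight₁ (u i) ≤ Real.exp ((C1 * H ^ (2 * A) : ℕ) : ℝ)) ∧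
      mulHeight₁ x ≤ Real.exp ((C1 * H ^ (2 * A) : ℕ) : ℝ) := by
  set D : ℕ := ∑ i ∈ range (m + 1), (G i).totalDegree with hD
  set B : ℝ := 1 + ∑ i ∈ range (m + 1), nrm (G i) with hB
  have hBs : 0 ≤ ∑ i ∈ range (m + 1), nrm (G i) := sum_nonneg fun i _ ↦ nrm_nonneg _
  have hB1 : 1 ≤ B := by rw [hB]; linarith
  have hlB : 0 ≤ Real.log B := Real.log_nonneg hB1
  set N5 : ℕ := Fintype.card ι with hN5
  set Q : ℝ := 10 + m + Real.log B + N5 * D with hQ
  set C1 : ℕ := ⌈Q⌉₊ * (m + 1) with hC1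
  refine ⟨C1, fun H v hH hNFd hGm ρ hρ ↦ ?_⟩
  obtain ⟨K, hK, hKA, hL⟩ := hNFd
  have hH2 : (2 : ℝ) ≤ H := by exact_mod_cast hH
  have hT1 : (1 : ℝ) ≤ (H : ℝ) ^ A := one_le_pow₀ (by linarith)
  set T : ℝ := (H : ℝ) ^ A with hT
  have hNF : NumberField K := { to_charZero := inferInstance, to_finiteDimensional := hK }
  obtain ⟨u, hu, -⟩ := hL K (algebraMap K ℂ) (fun x hx ↦ ⟨⟨x, hx⟩, rfl⟩)
  have hval : ∀ P : MvPolynomial ι ℤ,
      algebraMap K ℂ (MvPolynomial.aeval u P) = MvPolynomial.aeval v P := by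
    intro P
    have h5 := MvPolynomial.comp_aeval_apply u (algebraMap K ℂ).toIntAlgHom P
    have h6 : (fun i ↦ (algebraMap K ℂ).toIntAlgHom (u i)) = v := by
      ext x
      exact hu x
    rw [h6] at h5
    exact h5
  set f : Polynomial K := ∑ i ∈ range (m + 1),
    Polynomial.C (MvPolynomial.aeval u (G i)) * Polynomial.X ^ i with hf
  have hfd : f.natDegree ≤ m := by
    refine Polynomial.natDegree_sum_le_of_forall_le _ _ fun i hi ↦ ?_
    exact (Polynomial.natDegree_C_mul_X_pow_le _ _).trans (Nat.lt_succ_iff.mp (mem_range.mp hi))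
  have hf0 : f ≠ 0 := by
    intro h0
    have h1 := congrArg (fun p ↦ p.coeff m) h0
    simp only [hf, Polynomial.finsetSum_coeff, Polynomial.coeff_C_mul, Polynomial.coeff_X_pow,
      Polynomial.coeff_zero] at h1
    rw [sum_eq_single m] at h1
    · rw [if_pos rfl, mul_one] at h1
      apply hGm
      rw [← hval, h1, map_zero]
    · intro i _ hi
      rw [if_neg (Ne.symm hi), mul_zero]
    · intro hM
      exact absurd (mem_range.mpr (Nat.lt_succ_self m)) hM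
  obtain ⟨K1, hK1, hρ1, hf1, hd1⟩ := one_step K ρ f hf0 (by
    rw [hf, map_sum, ← hρ]
    refine sum_congr rfl fun i _ ↦ ?_
    rw [map_mul, Polynomial.aeval_C, map_pow, Polynomial.aeval_X, hval])
  have hNF1 : NumberField K1 := { to_charZero := inferInstance, to_finiteDimensional := hf1 }
  obtain ⟨u', hu', hub⟩ := hL K1 (algebraMap K1 ℂ) (fun x hx ↦ ⟨⟨x, hK1 hx⟩, rfl⟩)
  have hval' : ∀ P : MvPolynomial ι ℤ,
      algebraMap K1 ℂ (MvPolynomial.aeval u' P) = MvPolynomial.aeval v P := by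
    intro P
    have h5 := MvPolynomial.comp_aeval_apply u' (algebraMap K1 ℂ).toIntAlgHom P
    have h6 : (fun i ↦ (algebraMap K1 ℂ).toIntAlgHom (u' i)) = v := by
      ext x
      exact hu' x
    rw [h6] at h5
    exact h5
  set rt : K1 := ⟨ρ, hρ1⟩ with hrt
  have hrb : HB (m + Real.log B + N5 * D * T) rt := by
    have hroot := HB.root hub (n := m) (fun j ↦ if j ≤ m then G j else 0) (D := D)
      (fun j ↦ by
        split_ifs with hj
        · exact single_le_sum (f := fun i ↦ (G i).totalDegree) (fun _ _ ↦ Nat.zero_le _)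
            (mem_range.mpr (Nat.lt_succ_of_le hj))
        · simp) (B := B) hB1 (fun j ↦ by
        split_ifs with hj
        · have := single_le_sum (f := fun i ↦ nrm (G i)) (fun _ _ ↦ nrm_nonneg _)
            (mem_range.mpr (Nat.lt_succ_of_le hj))
          rw [hB]
          linarith
        · rw [nrm_zero]; linarith) rt ?_ ?_
    · exact hroot
    · rw [if_pos le_rfl]
      intro h0
      apply hGm
      rw [← hval', h0, map_zero]
    · apply (algebraMap K1 ℂ).injective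
      rw [map_zero, map_sum, ← hρ]
      refine sum_congr rfl fun i hi ↦ ?_
      rw [if_pos (Nat.lt_succ_iff.mp (mem_range.mp hi)), map_mul, map_pow, hval']
      rfl
  set x4 : K1 := ((3 : ℤ) : K1) / ((2 : ℤ) : K1) * rt with hx4
  have hx4b : HB (5 + (m + Real.log B + N5 * D * T)) x4 :=
    (((HB.int 3).div (HB.int 2)).mul hrb).mono (by
        norm_num)
  have hx4v : algebraMap K1 ℂ x4 = 3 / 2 * ρ := by
    have e1 : algebraMap K1 ℂ rt = ρ := rfl
    rw [hx4, map_mul, map_div₀, e1, map_intCast, map_intCast]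
    push_cast
    rfl
  have hd : Module.finrank ℚ K1 ≤ H ^ A * (m + 1) := by
    calc Module.finrank ℚ K1 ≤ Module.finrank ℚ K * m := hd1.trans (Nat.mul_le_mul_left _ hfd)
      _ ≤ H ^ A * (m + 1) := Nat.mul_le_mul hKA (by omega)
  have hQ0 : 0 ≤ Q := by
    rw [hQ]
    positivity
  have hQceil : Q ≤ (⌈Q⌉₊ : ℝ) := Nat.le_ceil Q
  have hC1' : (C1 : ℝ) * T ^ 2 = ⌈Q⌉₊ * T * (T * (m + 1)) := by
    rw [hC1]; push_cast; ring
  have hd' : (totalWeight K1 : ℝ) ≤ T * (m + 1) := by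
    rw [totalWeight_eq_finrank, hT]
    exact_mod_cast hd
  have hfin : ∀ (S : ℝ) (x : K1), 0 ≤ S → HB S x → S ≤ Q * T →
      mulHeight₁ x ≤ Real.exp ((C1 * H ^ (2 * A) : ℕ) : ℝ) := by
    intro S x hS hx hSQ
    unfold HB at hx
    rw [← Real.log_le_iff_le_exp (mulHeight₁_pos _), ← logHeight₁_eq_log_mulHeight₁]
    have e1 : ((C1 * H ^ (2 * A) : ℕ) : ℝ) = C1 * T ^ 2 := by
      rw [hT]; push_cast; ring
    rw [e1, hC1']
    calc logHeight₁ x ≤ S * totalWeight K1 := hx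
      _ ≤ (⌈Q⌉₊ * T) * (T * (m + 1)) := by
        have : S ≤ ⌈Q⌉₊ * T := hSQ.trans (by gcongr)
        gcongr
  have hQT : Q * T = 10 * T + m * T + Real.log B * T + N5 * D * T := by rw [hQ]; ring
  have hnT : (m : ℝ) ≤ m * T := le_mul_of_one_le_right (by positivity) hT1
  have hlT : Real.log B ≤ Real.log B * T := le_mul_of_one_le_right hlB hT1
  have hDT0 : (0 : ℝ) ≤ N5 * D * T := by positivity
  have hnT0 : (0 : ℝ) ≤ m * T := by positivity
  have hlT0 : (0 : ℝ) ≤ Real.log B * T := by positivity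
  refine ⟨K1, inferInstance, hNF1, algebraMap K1 ℂ, u', x4, hu', hx4v, ?_,
    fun i ↦ hfin _ _ (by positivity) (hub i) ?_, hfin _ _ (by positivity) hx4b ?_⟩
  · rw [totalWeight_eq_finrank]
    refine hd.trans ?_
    have h5 : 1 ≤ ⌈Q⌉₊ := by
      rw [Nat.one_le_ceil_iff, hQ]
      positivity
    have h6 : 1 ≤ H ^ A := Nat.one_le_pow _ _ (by omega)
    calc H ^ A * (m + 1) = 1 * (1 * (H ^ A * (m + 1))) := by ring
      _ ≤ ⌈Q⌉₊ * (H ^ A * (H ^ A * (m + 1))) := by gcongr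
      _ = C1 * H ^ (2 * A) := by rw [hC1]; ring
  · rw [hQT]; linarith
  · rw [hQT]; linarith

end NFd

end H32.T5
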