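import Pool.Agent.H32.T5.Y2

/-!
# Translates of a point with algebraic invariant: degrees and heights
-/

open UpperHalfPlane hiding I
open Complex EisensteinSeries ModularForm MatrixGroups
open scoped Real

namespace H32.T5

open Height Height.AdmissibleAbsValues Finset NumberField H32.T3

/-- The values attached to a translate. -/
noncomputable def oY (a b c d y : ℂ) : Fin 3 → ℂ :=
  ![jc (mob a b c d y), wY a b c d y, xY a b c d y]

theorem orb_heights (y : ℍ) (h4 : E₄ y ≠ 0) (h6 : E₆ y ≠ 0) (hy : IsAlgebraic ℤ (jf y)) :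
    ∃ A : ℕ, ∀ (H : ℕ) (a b c d : ℤ), 2 ≤ H → |a| ≤ H → |b| ≤ H → |c| ≤ H → |d| ≤ H →
      0 < a * d - b * c → NFd A H (oY a b c d y) := by
  obtain ⟨A0, hA0⟩ := NFd.const hy
  obtain ⟨KK, hKK1, hKK⟩ := rel_PQ
  obtain ⟨KT, hKT1, hKT⟩ := rel_all
  obtain ⟨k0, hk0⟩ := exists_pow_bound (KK + KT)
  refine ⟨A0 + k0 + 12 + 2 * (k0 + A0 + 90), fun H a b c d hH ha hb hc hd hN ↦ ?_⟩
  have hH1 : 1 ≤ H := by omega
  have hHr : (2 : ℝ) ≤ H := by exact_mod_cast hH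
  have hHr1 : (1 : ℝ) ≤ H := by linarith
  have hHz : (2 : ℤ) ≤ H := by exact_mod_cast hH
  -- the determinant
  obtain ⟨N, hNd⟩ : ∃ N : ℕ, (N : ℤ) = a * d - b * c := ⟨(a * d - b * c).toNat,
    Int.toNat_of_nonneg hN.le⟩
  have hN0 : 0 < N := by
    have : (0 : ℤ) < N := by rw [hNd]; exact hN
    exact_mod_cast this
  have hN3 : N ≤ H ^ 3 := by
    have e1 : |a * d - b * c| ≤ |a| * |d| + |b| * |c| := by
      rw [← abs_mul, ← abs_mul]
      exact abs_sub _ _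
    have e2 : |a| * |d| ≤ (H : ℤ) * H := mul_le_mul ha hd (abs_nonneg _) (by linarith)
    have e3 : |b| * |c| ≤ (H : ℤ) * H := mul_le_mul hb hc (abs_nonneg _) (by linarith)
    have e4 : (N : ℤ) ≤ (H : ℤ) ^ 3 := by
      calc (N : ℤ) ≤ |a * d - b * c| := by rw [hNd]; exact le_abs_self _
        _ ≤ 2 * ((H : ℤ) * H) := by linarith
        _ ≤ H * ((H : ℤ) * H) := by gcongr
        _ = _ := by ring
    exact_mod_cast e4
  -- the point
  have him : 0 < (mob a b c d (y : ℂ)).im := by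
    have h1 : (0 : ℝ) < (a : ℝ) * d - b * c := by exact_mod_cast hN
    have h2 := (im_mobC (a := a) (b := b) (c := c) (d := d) y.im_pos h1).2.2
    push_cast at h2
    exact h2
  set τ' : ℍ := ⟨mob a b c d (y : ℂ), him⟩ with hτ'
  have hτ : (τ' : ℂ) = (a * (y : ℂ) + b) / (c * y + d) := rfl
  obtain ⟨s, hs, hsP, hsQ, -⟩ := rat_eval hN0 hNd y τ' hτ
  obtain ⟨s', hs', -, -, hsT⟩ := rat_eval hN0 hNd y τ' hτ
  obtain ⟨rP, rQ, m1, m2, dP, dQ, nP, nQ, eP, eQ⟩ := hKK N hN0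
  obtain ⟨-, rT, -, m3, -, dT, -, nT, -, eT⟩ := hKT N hN0
  set M := (SN N).card with hM
  have hpow : ∀ {i j : ℕ}, i ≤ j → H ^ i ≤ H ^ j := fun hij ↦ Nat.pow_le_pow_right hH1 hij
  have hM6 : M ≤ H ^ 6 := by
    calc M ≤ N ^ 2 := card_SN_le hN0
      _ ≤ (H ^ 3) ^ 2 := Nat.pow_le_pow_left hN3 2
      _ = H ^ 6 := by ring
  have h2M : 2 * M ≤ H ^ 7 := by
    calc 2 * M ≤ H * H ^ 6 := Nat.mul_le_mul hH hM6
      _ = H ^ 7 := by ring
  have hNr : (N : ℝ) ≤ (H : ℝ) ^ 3 := by exact_mod_cast hN3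
  set S : ℝ := (H : ℝ) ^ (k0 + 78) with hS
  have hexpB : ∀ κ : ℝ, κ ≤ KK + KT → Real.exp (κ * (N : ℝ) ^ 26) ≤ Real.exp S := by
    intro κ hκ
    apply Real.exp_le_exp.mpr
    have hk := hk0 H hH
    calc κ * (N : ℝ) ^ 26 ≤ (H : ℝ) ^ k0 * ((H : ℝ) ^ 3) ^ 26 := by
          have : κ ≤ (H : ℝ) ^ k0 := hκ.trans hk
          gcongr
      _ = _ := by rw [hS, ← pow_mul, ← pow_add]
  have hexp1 := hexpB KK (by linarith)
  have hexp2 := hexpB KT (by linarith)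
  set P : ℂ := ((N : ℂ) / (c * y + d)) ^ 4 * E₄ τ' * E₄ y ^ 2 / discriminant y with hP
  set Q : ℂ := ((N : ℂ) / (c * y + d)) ^ 6 * E₆ τ' * E₆ y / discriminant y with hQ
  set T : ℂ := (((N : ℂ) / (c * y + d)) ^ 2 * E2s τ' - N * E2s y) * (E₄ y * E₆ y) /
    discriminant y with hT
  have hrelP : ∑ i ∈ range (M + 1), Polynomial.aeval (jf y) (rP i) * P ^ i = 0 := by
    rw [eP, prod_eq_zero hs, mul_zero]
    rw [hsP, pow_one, sub_self]
  have hrelQ : ∑ i ∈ range (M + 1), Polynomial.aeval (jf y) (rQ i) * Q ^ i = 0 := by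
    rw [eQ, prod_eq_zero hs, mul_zero]
    rw [hsQ, pow_one, sub_self]
  have hrelT : ∑ i ∈ range (M + 1), Polynomial.aeval (jf y) (rT i) * T ^ i = 0 := by
    rw [eT, prod_eq_zero hs', mul_zero]
    rw [hsT, pow_one, sub_self]
  have hfac : ((M.factorial : ℤ)) ≠ 0 := by exact_mod_cast Nat.factorial_ne_zero _
  -- one more root
  have stepr : ∀ (K : IntermediateField ℚ ℂ) (_ : FiniteDimensional ℚ K) (_ : jf y ∈ K)
      (r : ℕ → Polynomial ℤ) (_ : r M = Polynomial.C (M.factorial : ℤ)) (x : ℂ)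
      (_ : ∑ i ∈ range (M + 1), Polynomial.aeval (jf y) (r i) * x ^ i = 0),
      ∃ K' : IntermediateField ℚ ℂ, K ≤ K' ∧ x ∈ K' ∧ FiniteDimensional ℚ K' ∧
        Module.finrank ℚ K' ≤ Module.finrank ℚ K * M := by
    intro K hK hj r hr x hx
    set f : Polynomial K := ∑ i ∈ range (M + 1),
      Polynomial.C (Polynomial.aeval (⟨jf y, hj⟩ : K) (r i)) * Polynomial.X ^ i with hf
    have hfd : f.natDegree ≤ M := by
      refine Polynomial.natDegree_sum_le_of_forall_le _ _ fun i hi ↦ ?_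
      exact (Polynomial.natDegree_C_mul_X_pow_le _ _).trans (Nat.lt_succ_iff.mp (mem_range.mp hi))
    have hcoe : ∀ p : Polynomial ℤ, ((Polynomial.aeval (⟨jf y, hj⟩ : K) p : K) : ℂ) =
        Polynomial.aeval (jf y) p := by
      intro p
      have := Polynomial.aeval_algebraMap_apply ℂ (⟨jf y, hj⟩ : K) p
      exact this.symm
    have hf0 : f ≠ 0 := by
      intro h0
      have h1 := congrArg (fun p ↦ p.coeff M) h0
      simp only [hf, Polynomial.finsetSum_coeff, Polynomial.coeff_C_mul, Polynomial.coeff_X_pow,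
        Polynomial.coeff_zero] at h1
      rw [sum_eq_single M] at h1
      · rw [if_pos rfl, mul_one, hr, Polynomial.aeval_C, algebraMap_int_eq, eq_intCast] at h1
        exact hfac (by exact_mod_cast h1)
      · intro i _ hi
        rw [if_neg (Ne.symm hi), mul_zero]
      · intro hM
        exact absurd (mem_range.mpr (Nat.lt_succ_self M)) hM
    obtain ⟨K', a1, a2, a3, a4⟩ := one_step K x f hf0 (by
      rw [hf, map_sum, ← hx]
      refine sum_congr rfl fun i _ ↦ ?_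
      rw [map_mul, Polynomial.aeval_C, map_pow, Polynomial.aeval_X]
      congr 1
      exact hcoe _)
    exact ⟨K', a1, a2, a3, a4.trans (Nat.mul_le_mul_left _ hfd)⟩
  obtain ⟨K0, hK0, hK0A, hL0⟩ := hA0 H hH
  have hNF : NumberField K0 := { to_charZero := inferInstance, to_finiteDimensional := hK0 }
  have hjK : jf y ∈ K0 := by
    obtain ⟨u, h1, -⟩ := hL0 K0 (algebraMap K0 ℂ) (fun x hx ↦ ⟨⟨x, hx⟩, rfl⟩)
    have h2 : algebraMap K0 ℂ (u ()) = jf y := h1 ()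
    rw [← h2]
    exact (u ()).2
  obtain ⟨K1, hK1, hPK, hf1, hd1⟩ := stepr K0 hK0 hjK rP m1 P hrelP
  obtain ⟨K2, hK2, hQK, hf2, hd2⟩ := stepr K1 hf1 (hK1 hjK) rQ m2 Q hrelQ
  obtain ⟨K3, hK3, hTK, hf3, hd3⟩ := stepr K2 hf2 (hK2 (hK1 hjK)) rT m3 T hrelT
  refine ⟨K3, hf3, ?_, fun L _ _ σ hσ ↦ ?_⟩
  · calc Module.finrank ℚ K3 ≤ ((H ^ A0 * H ^ 6) * H ^ 6) * H ^ 6 := by
          refine hd3.trans (Nat.mul_le_mul ?_ hM6)
          refine hd2.trans (Nat.mul_le_mul ?_ hM6)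
          exact hd1.trans (Nat.mul_le_mul hK0A hM6)
      _ = H ^ (A0 + 18) := by ring
      _ ≤ _ := hpow (by omega)
  obtain ⟨uJ, hJ', bJ'⟩ := hL0 L σ (fun x hx ↦ hσ x (hK3 (hK2 (hK1 hx))))
  set J : L := uJ () with hJdef
  have hJ : σ J = jf y := hJ' ()
  have bJ : HB ((H : ℝ) ^ A0) J := bJ' ()
  obtain ⟨yP, hyP⟩ := hσ P (hK3 (hK2 hPK))
  obtain ⟨yQ, hyQ⟩ := hσ Q (hK3 hQK)
  obtain ⟨yT, hyT⟩ := hσ T hTK
  have hinj : Function.Injective σ := σ.injective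
  set R : ℝ := (H : ℝ) ^ (k0 + A0 + 78) with hR
  have hrp : ∀ {i j : ℕ}, i ≤ j → (H : ℝ) ^ i ≤ (H : ℝ) ^ j := fun hij ↦
    pow_le_pow_right₀ hHr1 hij
  have hTR : (H : ℝ) ^ A0 ≤ R := hrp (by omega)
  have hSR : S ≤ R := hrp (by omega)
  have hMR : (M : ℝ) ≤ R := by
    have : (M : ℝ) ≤ (H : ℝ) ^ 6 := by exact_mod_cast hM6
    exact this.trans (hrp (by omega))
  have hDT : ((2 * M : ℕ) : ℝ) * (H : ℝ) ^ A0 ≤ R := by
    have h1 : ((2 * M : ℕ) : ℝ) ≤ (H : ℝ) ^ 7 := by exact_mod_cast h2M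
    calc ((2 * M : ℕ) : ℝ) * (H : ℝ) ^ A0 ≤ (H : ℝ) ^ 7 * (H : ℝ) ^ A0 := by
          gcongr
      _ = (H : ℝ) ^ (A0 + 7) := by ring
      _ ≤ R := hrp (by omega)
  have rootb : ∀ (r : ℕ → Polynomial ℤ) (_ : r M = Polynomial.C (M.factorial : ℤ))
      (_ : ∀ i, (r i).natDegree ≤ 2 * M) (_ : ∀ i, nr (r i) ≤ Real.exp S)
      (x : ℂ) (_ : ∑ i ∈ range (M + 1), Polynomial.aeval (jf y) (r i) * x ^ i = 0)
      (y : L) (_ : σ y = x), HB (3 * R) y := by
    intro r hr hrd hrn x hx y hy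
    have h := HB.root (ι := Fin 1) (x := fun _ ↦ J) (fun _ ↦ bJ) (n := M) (fun j ↦ mv (r j))
      (D := 2 * M) (fun j ↦ (deg_mv _).trans (hrd j)) (B := Real.exp S)
      (Real.one_le_exp (by positivity))
      (fun j ↦ (nrm_mv _).trans (hrn j)) y ?_ ?_
    · refine h.mono ?_
      rw [Real.log_exp]
      simp only [Fintype.card_fin, Nat.cast_one, one_mul]
      linarith
    · rw [aeval_mv, hr, Polynomial.aeval_C, algebraMap_int_eq, eq_intCast, Int.cast_ne_zero]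
      exact hfac
    · apply hinj
      rw [map_zero, map_sum, ← hx]
      refine sum_congr rfl fun i _ ↦ ?_
      rw [aeval_mv, map_mul, map_pow, hy]
      congr 1
      rw [Polynomial.aeval_eq_sum_range, Polynomial.aeval_eq_sum_range, map_sum]
      refine sum_congr rfl fun k _ ↦ ?_
      rw [zsmul_eq_mul, zsmul_eq_mul, map_mul, map_pow, hJ, map_intCast]
  have bP := rootb rP m1 dP (fun i ↦ (nP i).trans hexp1) P hrelP yP hyP
  have bQ := rootb rQ m2 dQ (fun i ↦ (nQ i).trans hexp1) Q hrelQ yQ hyQ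
  have bT := rootb rT m3 dT (fun i ↦ (nT i).trans hexp2) T hrelT yT hyT
  have hNL : HB R ((N : ℤ) : L) := (HB.int (N : ℤ)).mono (by
    push_cast
    rw [Nat.abs_cast]
    exact hNr.trans (hrp (by omega)))
  have h1728 : HB 1728 ((1728 : ℤ) : L) := (HB.int 1728).mono (by norm_num)
  obtain ⟨f1, f2, f3⟩ := orb_formula hN0 hNd y τ' hτ h4 h6 hP hQ hT
  have bJ2 : HB R J := bJ.mono hTR
  have hR1 : 1 ≤ R := one_le_pow₀ hHr1
  have hfin : 6000 * R ≤ (H : ℝ) ^ (A0 + k0 + 12 + 2 * (k0 + A0 + 90)) := by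
    have h1 : (6000 : ℝ) ≤ (H : ℝ) ^ 13 := by
      calc (6000 : ℝ) ≤ 2 ^ 13 := by norm_num
        _ ≤ _ := by gcongr
    calc _ ≤ (H : ℝ) ^ 13 * R := by gcongr
      _ = (H : ℝ) ^ (k0 + A0 + 91) := by rw [hR]; ring
      _ ≤ _ := hrp (by omega)
  have hp3 := ((bP.mul bP).mul bP).mul (bJ2.sub h1728)
  have hq2 := (bQ.mul bQ).mul (bJ2.mul bJ2)
  have c1 := (h1728.mul hp3).div (hp3.sub hq2)
  have c2 := ((bQ.div bP).div hNL).mul (bJ2.div (bJ2.sub h1728))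
  have c3 := bT.div (hNL.mul (bJ2.sub h1728))
  refine ⟨![((1728 : ℤ) : L) * (yP * yP * yP * (J - ((1728 : ℤ) : L))) /
      (yP * yP * yP * (J - ((1728 : ℤ) : L)) - yQ * yQ * (J * J)),
      yQ / yP / ((N : ℤ) : L) * (J / (J - ((1728 : ℤ) : L))),
      yT / (((N : ℤ) : L) * (J - ((1728 : ℤ) : L)))], fun i ↦ ?_, fun i ↦ ?_⟩
  rotate_left
  · fin_cases i
    · exact c1.mono (by linarith)
    · exact c2.mono (by linarith)
    · exact c3.mono (by linarith)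
  · fin_cases i
    · have e : oY a b c d y 0 = jc τ' := rfl
      change σ (((1728 : ℤ) : L) * (yP * yP * yP * (J - ((1728 : ℤ) : L))) /
        (yP * yP * yP * (J - ((1728 : ℤ) : L)) - yQ * yQ * (J * J))) = oY a b c d y 0
      rw [e, f1, map_div₀, map_mul, map_sub, map_mul, map_mul, map_mul, map_mul, map_mul, map_mul,
        map_sub, hyP, hyQ, hJ, map_intCast]
      push_cast
      ring_nf
    · have e : oY a b c d y 1 = wY a b c d y := rfl
      change σ (yQ / yP / ((N : ℤ) : L) * (J / (J - ((1728 : ℤ) : L)))) = oY a b c d y 1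
      rw [e, f2, map_mul, map_div₀, map_div₀, map_div₀, map_sub, hyP, hyQ, hJ, map_intCast,
        map_intCast]
      push_cast
      rfl
    · have e : oY a b c d y 2 = xY a b c d y := rfl
      change σ (yT / (((N : ℤ) : L) * (J - ((1728 : ℤ) : L)))) = oY a b c d y 2
      rw [e, f3, map_div₀, map_mul, map_sub, hyT, hJ, map_intCast, map_intCast]
      push_cast
      rfl

end H32.T5
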