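import Pool.Agent.H32.T5.Y3

/-!
# Translates with matrices over a real field: functional independence
-/

set_option linter.unusedSimpArgs false

open UpperHalfPlane hiding I
open Complex EisensteinSeries ModularForm MatrixGroups Manifold
open scoped Real Topology
open MvPolynomial Filter

namespace H32.T5

open H32.T3 H32.T4

/-- The data describing a tuple of translates. -/
structure Orb (m n b : ℕ) where
  /-- constructor -/
  of ::
  /-- the parameters -/
  t : Fin m → ℝ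
  /-- entries -/
  pA : Fin n → MvPolynomial (Fin m) ℤ
  /-- entries -/
  pB : Fin n → MvPolynomial (Fin m) ℤ
  /-- entries -/
  pC : Fin n → MvPolynomial (Fin m) ℤ
  /-- entries -/
  pD : Fin n → MvPolynomial (Fin m) ℤ
  /-- base points -/
  y : Fin b → ℍ
  /-- classes -/
  c : Fin n → Fin b
  hdet : ∀ i, 0 < aeval t (pA i * pD i - pB i * pC i)

namespace Orb

variable {m n b : ℕ} (S : Orb m n b)

/-- The complex parameters. -/
noncomputable def x : Fin m → ℂ := fun s ↦ (S.t s : ℂ)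

/-- The functions. -/
noncomputable def φ (i : Fin n) (s : Fin m → ℂ) : ℂ :=
  mob (aeval s (S.pA i)) (aeval s (S.pB i)) (aeval s (S.pC i)) (aeval s (S.pD i)) (S.y (S.c i))

/-- The denominators. -/
noncomputable def den (i : Fin n) (s : Fin m → ℂ) : ℂ :=
  aeval s (S.pC i) * (S.y (S.c i) : ℂ) + aeval s (S.pD i)

/-- The determinants. -/
noncomputable def dt (i : Fin n) : MvPolynomial (Fin m) ℤ := S.pA i * S.pD i - S.pB i * S.pC i

lemma x_aeval (p : MvPolynomial (Fin m) ℤ) : aeval S.x p = ((aeval S.t p : ℝ) : ℂ) :=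
  aeval_ofReal S.t p

lemma real_pos {u : Fin m → ℝ} {i : Fin n} (h : 0 < (aeval u (S.dt i) : ℝ)) :
    S.den i (fun s ↦ (u s : ℂ)) ≠ 0 ∧ 0 < (S.φ i (fun s ↦ (u s : ℂ))).im := by
  have h1 : 0 < (aeval u (S.pA i) : ℝ) * aeval u (S.pD i) - aeval u (S.pB i) * aeval u (S.pC i) := by
    have := h
    rwa [dt, map_sub, map_mul, map_mul] at this
  obtain ⟨h2, -, h3⟩ := im_mobC (S.y (S.c i)).im_pos h1
  rw [den, φ, aeval_ofReal, aeval_ofReal, aeval_ofReal, aeval_ofReal]
  exact ⟨h2, h3⟩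

lemma den_x (i : Fin n) : S.den i S.x ≠ 0 := (S.real_pos (S.hdet i)).1

lemma im_φ (i : Fin n) : 0 < (S.φ i S.x).im := (S.real_pos (S.hdet i)).2

lemma dt_x (i : Fin n) : aeval S.x (S.dt i) ≠ 0 := by
  rw [x_aeval]
  exact_mod_cast (S.hdet i).ne'

lemma an_den (i : Fin n) (s : Fin m → ℂ) : AnalyticAt ℂ (S.den i) s :=
  ((an_aeval _ _).fun_mul analyticAt_const).fun_add (an_aeval _ _)

lemma an_φ (i : Fin n) : AnalyticAt ℂ (S.φ i) S.x :=
  AnalyticAt.fun_div (((an_aeval _ _).fun_mul analyticAt_const).fun_add (an_aeval _ _))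
    (S.an_den i _) (S.den_x i)

lemma alg_φ (i : Fin n) (v : Fin m → ℂ) (h : AnalyticAt ℂ (fun ζ : ℂ ↦ S.φ i (line S.x v ζ)) 0) :
    IsAlgebraic EX (mk (fun ζ : ℂ ↦ S.φ i (line S.x v ζ)) h.meromorphicAt) := by
  have hp : ∀ p : MvPolynomial (Fin m) ℤ, MeromorphicAt (fun ζ ↦ aeval (line S.x v ζ) p) 0 :=
    fun p ↦ (an_line (an_aeval p S.x)).meromorphicAt
  set Y : MG := algebraMap ℂ MG (S.y (S.c i) : ℂ) with hY
  have hYm : Y ∈ EX := EX.algebraMap_mem _
  have hq : ∀ p q : MvPolynomial (Fin m) ℤ,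
      MeromorphicAt (fun ζ ↦ aeval (line S.x v ζ) p * (S.y (S.c i) : ℂ) + aeval (line S.x v ζ) q) 0 :=
    fun p q ↦ (an_line (((an_aeval p S.x).fun_mul analyticAt_const).fun_add
      (an_aeval q S.x))).meromorphicAt
  have hqe : ∀ p q : MvPolynomial (Fin m) ℤ, mk _ (hq p q) = mk _ (hp p) * Y + mk _ (hp q) := by
    intro p q
    rw [hY, algebraMap_MG, mk_mul, mk_add]
  have hqm : ∀ p q : MvPolynomial (Fin m) ℤ, mk _ (hq p q) ∈ EX := by
    intro p q
    rw [hqe]
    exact EX.add_mem (EX.mul_mem (mem_EX _ _ _ _) hYm) (mem_EX _ _ _ _)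
  have h0 : mk _ (hq (S.pC i) (S.pD i)) ≠ 0 := by
    intro h0
    rw [mk_eq_zero] at h0
    have h1 : ContinuousAt (fun ζ ↦ S.den i (line S.x v ζ)) 0 :=
      (an_line (S.an_den i S.x)).continuousAt
    have h2 : Tendsto (fun ζ ↦ S.den i (line S.x v ζ)) NE (𝓝 (S.den i (line S.x v 0))) :=
      h1.tendsto.mono_left nhdsWithin_le_nhds
    rw [line_zero] at h2
    have h3 : Tendsto (fun ζ ↦ S.den i (line S.x v ζ)) NE (𝓝 0) := by
      refine tendsto_const_nhds.congr' ?_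
      filter_upwards [h0] with ζ hζ using hζ.symm
    exact S.den_x i (tendsto_nhds_unique h2 h3)
  have e : mk (fun ζ ↦ S.φ i (line S.x v ζ)) h.meromorphicAt =
      mk _ (hq (S.pA i) (S.pB i)) * (mk _ (hq (S.pC i) (S.pD i)))⁻¹ := by
    rw [eq_mul_inv_iff_mul_eq₀ h0, mk_mul, mk_eq_mk]
    have hne : ∀ᶠ ζ in NE, S.den i (line S.x v ζ) ≠ 0 := by
      rcases (hq (S.pC i) (S.pD i)).eventually_eq_zero_or_eventually_ne_zero with h1 | h1
      · exact absurd (mk_eq_zero.mpr h1) h0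
      · exact h1
    filter_upwards [hne] with ζ hζ
    exact div_mul_cancel₀ _ hζ
  rw [e]
  exact alg_EX (EX.mul_mem (hqm _ _) (EX.inv_mem (hqm _ _)))

/-- The polynomial detecting constancy. -/
noncomputable def pP (i : Fin n) : MvPolynomial (Fin m) ℂ :=
  (MvPolynomial.map (Int.castRingHom ℂ) (S.pC i) * C (S.y (S.c i) : ℂ) +
    MvPolynomial.map (Int.castRingHom ℂ) (S.pD i)) * C (S.φ i S.x) -
    (MvPolynomial.map (Int.castRingHom ℂ) (S.pA i) * C (S.y (S.c i) : ℂ) +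
      MvPolynomial.map (Int.castRingHom ℂ) (S.pB i))

lemma eval_pP (i : Fin n) (s : Fin m → ℂ) : eval s (S.pP i) =
    S.den i s * S.φ i S.x - (aeval s (S.pA i) * (S.y (S.c i) : ℂ) + aeval s (S.pB i)) := by
  have h : ∀ p : MvPolynomial (Fin m) ℤ, eval s (MvPolynomial.map (Int.castRingHom ℂ) p) =
      aeval s p := by
    intro p
    rw [eval_map, aeval_def]
    rfl
  rw [pP, den]
  simp only [map_add, map_sub, map_mul, map_pow, eval_C, h]

lemma pP_ne (hne : ∀ i, ¬ ∃ a b c d : ℚ, 0 < a * d - b * c ∧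
    S.φ i S.x = ((a : ℂ) * (S.y (S.c i) : ℂ) + b) / ((c : ℂ) * (S.y (S.c i) : ℂ) + d))
    (i : Fin n) : S.pP i ≠ 0 := by
  intro h0
  have hdt0 : S.dt i ≠ 0 := by
    intro h1
    have := S.hdet i
    change 0 < aeval S.t (S.dt i) at this
    rw [h1, map_zero] at this
    exact lt_irrefl _ this
  obtain ⟨u, hu⟩ : ∃ u : Fin m → ℤ, eval u (S.dt i) ≠ 0 := by
    by_contra hcon
    push Not at hcon
    exact hdt0 (MvPolynomial.funext fun y ↦ by rw [hcon y, map_zero])
  have hcast : ∀ p : MvPolynomial (Fin m) ℤ, aeval (fun s ↦ ((u s : ℤ) : ℂ)) p =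
      ((eval u p : ℤ) : ℂ) := by
    intro p
    have h := MvPolynomial.comp_aeval_apply (R := ℤ) u ((Int.castRingHom ℂ).toIntAlgHom) p
    exact h.symm
  have h1 := S.eval_pP i (fun s ↦ ((u s : ℤ) : ℂ))
  rw [h0, map_zero, den, hcast, hcast, hcast, hcast] at h1
  set A := eval u (S.pA i)
  set B := eval u (S.pB i)
  set C' := eval u (S.pC i)
  set D := eval u (S.pD i)
  have hdet : eval u (S.dt i) = A * D - B * C' := by
    rw [dt, map_sub, map_mul, map_mul]
  rw [hdet] at hu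
  set y : ℂ := (S.y (S.c i) : ℂ) with hy
  have hyim : 0 < y.im := (S.y (S.c i)).im_pos
  have hCD : (C' : ℝ) ≠ 0 ∨ (D : ℝ) ≠ 0 := by
    by_contra hcon
    push Not at hcon
    obtain ⟨k1, k2⟩ := hcon
    have k1' : C' = 0 := by exact_mod_cast k1
    have k2' : D = 0 := by exact_mod_cast k2
    rw [k1', k2'] at hu
    simp at hu
  have hden := den_ne_real hCD hyim
  have hval : S.φ i S.x = ((A : ℝ) * y + (B : ℝ)) / ((C' : ℝ) * y + (D : ℝ)) := by
    rw [eq_div_iff hden]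
    push_cast
    linear_combination -h1
  have him := S.im_φ i
  rw [hval, im_mob hden] at him
  have hns := Complex.normSq_pos.mpr hden
  have hpos : 0 < (A : ℝ) * D - B * C' := by
    by_contra hcon
    push Not at hcon
    have h2 : ((A : ℝ) * D - B * C') * y.im / Complex.normSq ((C' : ℝ) * y + (D : ℝ)) ≤ 0 :=
      div_nonpos_of_nonpos_of_nonneg (mul_nonpos_of_nonpos_of_nonneg hcon hyim.le) hns.le
    linarith
  refine hne i ⟨A, B, C', D, by exact_mod_cast hpos, ?_⟩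
  rw [hval]
  push_cast
  rfl

lemma nc_φ (hne : ∀ i, ¬ ∃ a b c d : ℚ, 0 < a * d - b * c ∧
    S.φ i S.x = ((a : ℂ) * (S.y (S.c i) : ℂ) + b) / ((c : ℂ) * (S.y (S.c i) : ℂ) + d))
    (i : Fin n) : ∃ p : MvPolynomial (Fin m) ℂ, p ≠ 0 ∧ ∀ v, eval (line S.x v 1) p ≠ 0 →
      ¬ ∀ᶠ ζ in NE, S.φ i (line S.x v ζ) = S.φ i S.x := by
  refine ⟨S.pP i, S.pP_ne hne i, fun v hv hcon ↦ hv ?_⟩
  -- the restriction to the line
  have han : AnalyticOnNhd ℂ (fun ζ ↦ eval (line S.x v ζ) (S.pP i)) Set.univ := by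
    intro ζ _
    have h1 : AnalyticAt ℂ (fun s : Fin m → ℂ ↦ aeval s (S.pP i)) (line S.x v ζ) :=
      AnalyticAt.aeval_mvPolynomial (𝕜 := ℂ) (f := fun s : Fin m → ℂ ↦ s)
        (fun i ↦ (ContinuousLinearMap.proj (R := ℂ) (φ := fun _ : Fin m ↦ ℂ) i).analyticAt _) _
    have h2 := AnalyticAt.fun_comp (g := fun s : Fin m → ℂ ↦ aeval s (S.pP i)) (f := line S.x v)
      h1 (line_an _ _ _)
    exact h2
  have hev : ∃ᶠ ζ in 𝓝[≠] (0 : ℂ), eval (line S.x v ζ) (S.pP i) = 0 := by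
    refine Eventually.frequently ?_
    have hpW : ∀ᶠ ζ in NE, S.den i (line S.x v ζ) ≠ 0 := by
      have h1 : ContinuousAt (fun ζ ↦ S.den i (line S.x v ζ)) 0 :=
        (an_line (S.an_den i S.x)).continuousAt
      have h2 : S.den i (line S.x v 0) ≠ 0 := by
        rw [line_zero]
        exact S.den_x i
      exact (h1.eventually_ne h2).filter_mono nhdsWithin_le_nhds
    filter_upwards [hcon, hpW] with ζ h1 h2
    rw [eval_pP, ← h1]
    have h3 : S.den i (line S.x v ζ) * S.φ i (line S.x v ζ) =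
        aeval (line S.x v ζ) (S.pA i) * (S.y (S.c i) : ℂ) + aeval (line S.x v ζ) (S.pB i) :=
      mul_div_cancel₀ _ h2
    rw [h3, sub_self]
  have h3 := han.eqOn_zero_of_preconnected_of_frequently_eq_zero isPreconnected_univ
    (Set.mem_univ 0) hev (Set.mem_univ 1)
  exact h3

/-- Functional independence. -/
theorem nonvan_φ (hne : ∀ i, ¬ ∃ a b c d : ℚ, 0 < a * d - b * c ∧
    S.φ i S.x = ((a : ℂ) * (S.y (S.c i) : ℂ) + b) / ((c : ℂ) * (S.y (S.c i) : ℂ) + d))
    (hrel : ∀ i j, i ≠ j → ¬ ∃ a b c d : ℚ, 0 < a * d - b * c ∧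
      S.φ j S.x = ((a : ℂ) * S.φ i S.x + b) / ((c : ℂ) * S.φ i S.x + d))
    (P : MvPolynomial ((Fin n × Fin 3) ⊕ Fin m) ℂ)
    (h : ∀ᶠ s in 𝓝 S.x, aeval (Sum.elim (fun p ↦ ee (S.φ p.1 s) p.2) s) P = 0) : P = 0 :=
  nonvan S.x S.φ S.an_φ S.im_φ S.alg_φ (S.nc_φ hne) hrel P h

/-- The family of numbers. -/
noncomputable def V (s : Fin m → ℂ) : (Fin n × Fin 3) ⊕ Fin m → ℂ :=
  Sum.elim (fun p ↦ oY (aeval s (S.pA p.1)) (aeval s (S.pB p.1)) (aeval s (S.pC p.1))
    (aeval s (S.pD p.1)) (S.y (S.c p.1)) p.2) s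

end Orb

lemma indep_of_card {R A : Type} [Field R] [Field A] [Algebra R A] {ι : Type} [Fintype ι]
    (S : ι → A) {N : ℕ} (hN : Fintype.card ι = N) {f : Fin N → ι}
    (hf : AlgebraicIndependent R (fun k ↦ S (f k))) : AlgebraicIndependent R S := by
  have hinj : Function.Injective f := fun a b hab ↦ hf.injective (by simp only [hab])
  have hbij : Function.Bijective f := by
    rw [Fintype.bijective_iff_injective_and_card]
    exact ⟨hinj, by rw [Fintype.card_fin, hN]⟩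
  have h1 := hf.comp (Equiv.ofBijective f hbij).symm (Equiv.injective _)
  convert h1 using 1
  ext k
  exact congrArg S ((Equiv.ofBijective f hbij).apply_symm_apply k).symm

namespace Orb

variable {m n b : ℕ} (S : Orb m n b)

/-- Rank computation. -/
theorem rank (h4 : ∀ c, E₄ (S.y c) ≠ 0) (h6 : ∀ c, E₆ (S.y c) ≠ 0)
    (r : ℕ → Fin m → ℂ) (hr : Tendsto r atTop (𝓝 S.x))
    (hX : AlgebraicIndependent ℂ (Sum.elim
      (fun p : Fin n × Fin 3 ↦ mkU (fun k ↦ ee (S.φ p.1 (r k)) p.2))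
      (fun s : Fin m ↦ mkU (fun k ↦ r k s)))) :
    AlgebraicIndependent ℂ (fun j ↦ mkU (fun k ↦ S.V (r k) j)) := by
  classical
  set M := AlgebraicIndependent.matroid ℂ Ult with hM
  set VS : (Fin n × Fin 3) ⊕ Fin m → Ult := fun j ↦ mkU (fun k ↦ S.V (r k) j) with hVS
  set D : Subalgebra ℂ Ult := Algebra.adjoin ℂ (Set.range VS) with hD
  have hgen : ∀ v ∈ Set.range VS, IsAlgebraic D v := by
    intro v hv
    exact isAlgebraic_algebraMap (⟨v, Algebra.subset_adjoin hv⟩ : D)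
  have aR : ∀ r : ℂ, IsAlgebraic D (algebraMap ℂ Ult r) := fun r ↦ by
    rw [IsScalarTower.algebraMap_apply ℂ D Ult]
    exact isAlgebraic_algebraMap _
  have ar : ∀ s, IsAlgebraic D (mkU (fun k ↦ r k s)) := fun s ↦ hgen _ ⟨Sum.inr s, rfl⟩
  have aP : ∀ p : MvPolynomial (Fin m) ℤ, IsAlgebraic D (mkU (fun k ↦ aeval (r k) p)) := by
    intro p
    induction p using MvPolynomial.induction_on with
    | C c =>
      have e : (fun k ↦ aeval (r k) (C c : MvPolynomial (Fin m) ℤ)) = fun _ : ℕ ↦ (c : ℂ) := by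
        ext k
        simp
      rw [e]
      exact aR c
    | add p q hp hq =>
      have e : (fun k ↦ aeval (r k) (p + q)) = (fun k ↦ aeval (r k) p) + fun k ↦ aeval (r k) q := by
        ext k
        simp
      rw [e, map_add]
      exact hp.add hq
    | mul_X p s hp =>
      have e : (fun k ↦ aeval (r k) (p * X s)) = (fun k ↦ aeval (r k) p) * fun k ↦ r k s := by
        ext k
        simp
      rw [e, map_mul]
      exact hp.mul (ar s)
  -- eventually nonzero quantities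
  have hdenE : ∀ i, ∀ᶠ k in atTop, S.den i (r k) ≠ 0 := fun i ↦
    ((S.an_den i S.x).continuousAt.tendsto.comp hr).eventually_ne (S.den_x i)
  have hdtE : ∀ i, ∀ᶠ k in atTop, aeval (r k) (S.dt i) ≠ 0 := fun i ↦
    ((an_aeval (S.dt i) S.x).continuousAt.tendsto.comp hr).eventually_ne (S.dt_x i)
  set g2 : Fin n → Ult := fun i ↦ mkU (fun k ↦ e2 (S.φ i (r k))) with hg2
  set g4 : Fin n → Ult := fun i ↦ mkU (fun k ↦ e4 (S.φ i (r k))) with hg4
  set g6 : Fin n → Ult := fun i ↦ mkU (fun k ↦ e6 (S.φ i (r k))) with hg6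
  have n4 : ∀ i, g4 i ≠ 0 := fun i ↦ hX.ne_zero (Sum.inl (i, 1))
  have n6 : ∀ i, g6 i ≠ 0 := fun i ↦ hX.ne_zero (Sum.inl (i, 2))
  have key : ∀ i, IsAlgebraic D (g2 i) ∧ IsAlgebraic D (g4 i) ∧ IsAlgebraic D (g6 i) := by
    intro i
    have y4 : e4 (S.y (S.c i) : ℂ) ≠ 0 := by rw [e4, ofComplex_apply]; exact h4 _
    have y6 : e6 (S.y (S.c i) : ℂ) ≠ 0 := by rw [e6, ofComplex_apply]; exact h6 _
    set dn : Ult := mkU (fun k ↦ S.den i (r k)) with hdn
    set dd : Ult := mkU (fun k ↦ aeval (r k) (S.dt i)) with hdd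
    have hdn0 : dn ≠ 0 := by
      intro h0
      obtain ⟨k, h1, h2⟩ := ((freq_of_mkU_zero h0).and_eventually (hdenE i)).exists
      exact h2 h1
    have hdd0 : dd ≠ 0 := by
      intro h0
      obtain ⟨k, h1, h2⟩ := ((freq_of_mkU_zero h0).and_eventually (hdtE i)).exists
      exact h2 h1
    have adn : IsAlgebraic D dn := by
      have e : dn = mkU (fun k ↦ aeval (r k) (S.pC i)) * algebraMap ℂ Ult (S.y (S.c i) : ℂ) +
          mkU (fun k ↦ aeval (r k) (S.pD i)) := by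
        rw [algebraMap_Ult, ← map_mul, ← map_add]
        rfl
      rw [e]
      exact ((aP _).mul (aR _)).add (aP _)
    have add' : IsAlgebraic D dd := aP _
    have aJ : IsAlgebraic D (VS (Sum.inl (i, 0))) := hgen _ ⟨_, rfl⟩
    have aw : IsAlgebraic D (VS (Sum.inl (i, 1))) := hgen _ ⟨_, rfl⟩
    have ax : IsAlgebraic D (VS (Sum.inl (i, 2))) := hgen _ ⟨_, rfl⟩
    have hκ : (e4 (S.y (S.c i) : ℂ) / e6 (S.y (S.c i) : ℂ)) ≠ 0 := div_ne_zero y4 y6
    have hκ' : algebraMap ℂ Ult (e4 (S.y (S.c i) : ℂ) / e6 (S.y (S.c i) : ℂ)) ≠ 0 := (map_ne_zero _).mpr hκ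
    have hdtd : ∀ k, aeval (r k) (S.pA i) * aeval (r k) (S.pD i) -
        aeval (r k) (S.pB i) * aeval (r k) (S.pC i) = aeval (r k) (S.dt i) := by
      intro k
      rw [dt, map_sub, map_mul, map_mul]
    -- relations
    have r1 : VS (Sum.inl (i, 1)) * dn ^ 2 * g4 i = dd * algebraMap ℂ Ult (e4 (S.y (S.c i) : ℂ) / e6 (S.y (S.c i) : ℂ)) * g6 i := by
      rw [algebraMap_Ult, hdn, hdd, hVS, hg4, hg6]
      simp only
      rw [← map_pow, ← map_mul, ← map_mul, ← map_mul, ← map_mul, ← sub_eq_zero, ← map_sub,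
        mkU_eq_zero]
      have h4U := n4 i
      rw [hg4, Ne, mkU_eq_zero, Ultrafilter.eventually_not.symm] at h4U
      have hden' : ∀ᶠ k in ((hyperfilter ℕ : Ultrafilter ℕ) : Filter ℕ), S.den i (r k) ≠ 0 :=
        (hdenE i).filter_mono (by
          rw [← Nat.cofinite_eq_atTop]
          exact hyperfilter_le_cofinite)
      filter_upwards [h4U, hden'] with k k1 k2
      simp only [Pi.sub_apply, Pi.mul_apply, Pi.pow_apply]
      change wY _ _ _ _ _ * _ * _ - _ = 0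
      rw [wY, hdtd]
      have k1' : e4 (mob ((aeval (r k)) (S.pA i)) ((aeval (r k)) (S.pB i))
        ((aeval (r k)) (S.pC i)) ((aeval (r k)) (S.pD i)) (S.y (S.c i))) ≠ 0 := k1
      have k2' : (aeval (r k)) (S.pC i) * (S.y (S.c i) : ℂ) + (aeval (r k)) (S.pD i) ≠ 0 := k2
      rw [φ, den]
      field_simp
      ring
    have r2 : VS (Sum.inl (i, 0)) * (g4 i ^ 3 - g6 i ^ 2) = algebraMap ℂ Ult 1728 * g4 i ^ 3 := by
      rw [algebraMap_Ult, hVS, hg4, hg6]
      simp only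
      rw [← map_pow, ← map_pow, ← map_sub, ← map_mul, ← map_mul, ← sub_eq_zero, ← map_sub]
      refine mkU_zero_of_ev (Eventually.of_forall fun k ↦ ?_)
      simp only [Pi.sub_apply, Pi.mul_apply, Pi.pow_apply]
      change jc (S.φ i (r k)) * _ - _ = 0
      rw [jc, div_mul_cancel₀ _ disc_ne, sub_self]
    have yW : Wf (S.y (S.c i) : ℂ) ≠ 0 := Wf_ne y4 y6
    have r3 : (VS (Sum.inl (i, 2)) + algebraMap ℂ Ult (ps (S.y (S.c i) : ℂ))) * dn ^ 2 =
        dd * algebraMap ℂ Ult (e4 (S.y (S.c i) : ℂ) / e6 (S.y (S.c i) : ℂ)) * g2 i -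
          mkU (fun k ↦ aeval (r k) (S.pC i)) * algebraMap ℂ Ult (12 / Wf (S.y (S.c i) : ℂ)) * dn := by
      rw [algebraMap_Ult, algebraMap_Ult, algebraMap_Ult, hdn, hdd, hVS, hg2]
      simp only
      rw [← map_pow, ← map_add, ← map_mul, ← map_mul, ← map_mul, ← map_mul, ← map_mul, ← map_sub,
        ← sub_eq_zero, ← map_sub]
      refine mkU_zero_of_ev ((hdenE i).mono fun k k2 ↦ ?_)
      simp only [Pi.sub_apply, Pi.mul_apply, Pi.pow_apply, Pi.add_apply]
      change (xY _ _ _ _ _ + _) * _ - _ = 0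
      rw [xY, hdtd]
      have k2' : (aeval (r k)) (S.pC i) * (S.y (S.c i) : ℂ) + (aeval (r k)) (S.pD i) ≠ 0 := k2
      rw [φ, den]
      field_simp
      ring
    set W : Ult := g6 i * (g4 i)⁻¹ with hW
    have hWe : W = VS (Sum.inl (i, 1)) * dn ^ 2 * (dd * algebraMap ℂ Ult (e4 (S.y (S.c i) : ℂ) / e6 (S.y (S.c i) : ℂ)))⁻¹ := by
      rw [hW, ← div_eq_mul_inv, ← div_eq_mul_inv, div_eq_div_iff (n4 i) (mul_ne_zero hdd0 hκ')]
      linear_combination -r1
    have aW : IsAlgebraic D W := by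
      rw [hWe]
      exact (aw.mul (adn.pow 2)).mul (add'.mul (aR _)).inv
    have a2 : IsAlgebraic D (g2 i) := by
      have e : g2 i = ((VS (Sum.inl (i, 2)) + algebraMap ℂ Ult (ps (S.y (S.c i) : ℂ))) * dn ^ 2 +
          mkU (fun k ↦ aeval (r k) (S.pC i)) * algebraMap ℂ Ult (12 / Wf (S.y (S.c i) : ℂ)) * dn) *
          (dd * algebraMap ℂ Ult (e4 (S.y (S.c i) : ℂ) / e6 (S.y (S.c i) : ℂ)))⁻¹ := by
        rw [eq_mul_inv_iff_mul_eq₀ (mul_ne_zero hdd0 hκ')]
        linear_combination -r3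
      rw [e]
      exact (((ax.add (aR _)).mul (adn.pow 2)).add (((aP _).mul (aR _)).mul adn)).mul
        (add'.mul (aR _)).inv
    refine alg_gen D (c := 1) (ψ := g2 i * W⁻¹) one_ne_zero (by norm_num) (n4 i) (n6 i) (W := W) ?_
      r2 ?_ aJ aW (a2.mul aW.inv)
    · rw [hW, map_one, one_mul, inv_mul_cancel_right₀ (n4 i)]
    · have h4' := n4 i
      have h6' := n6 i
      rw [hW]
      field_simp
  set et : (Fin n × Fin 3) ⊕ Fin m → Ult :=
    Sum.elim (fun p : Fin n × Fin 3 ↦ mkU (fun k ↦ ee (S.φ p.1 (r k)) p.2))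
      (fun s : Fin m ↦ mkU (fun k ↦ r k s)) with het
  have hind : M.Indep (Set.range et) := by
    rw [hM, AlgebraicIndependent.matroid_indep_iff]
    exact hX.to_subtype_range
  have hcardI : Fintype.card ((Fin n × Fin 3) ⊕ Fin m) = 3 * n + m := by
    rw [Fintype.card_sum, Fintype.card_prod, Fintype.card_fin, Fintype.card_fin, Fintype.card_fin,
      mul_comm n 3]
  have hcard : (Set.range et).encard = ((3 * n + m : ℕ) : ℕ∞) := by
    rw [← Set.image_univ, hX.injective.encard_image, Set.encard_univ, ENat.card_eq_coe_fintype_card,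
      hcardI]
  have hsub : Set.range et ⊆ M.closure (Set.range VS) := by
    rw [hM, AlgebraicIndependent.matroid_closure_eq]
    rintro _ ⟨u, rfl⟩
    change IsAlgebraic D (et u)
    rcases u with ⟨i, l⟩ | s
    · fin_cases l
      · exact (key i).1
      · exact (key i).2.1
      · exact (key i).2.2
    · exact ar s
  obtain ⟨B, hB'⟩ := M.exists_isBasis (Set.range VS) (by rw [hM]; exact Set.subset_univ _)
  have h1 : ((3 * n + m : ℕ) : ℕ∞) ≤ B.encard := by
    rw [hB'.encard_eq_eRk, ← M.eRk_closure_eq, ← hcard]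
    exact hind.encard_le_eRk_of_subset hsub
  have hBi := hB'.indep
  rw [hM, AlgebraicIndependent.matroid_indep_iff] at hBi
  obtain ⟨f, hf⟩ := extract_indep' VS (B := B) hBi hB'.subset h1
  exact indep_of_card VS hcardI hf

end Orb

end H32.T5
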