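import Pool.Agent.H32.T5.Y4

/-!
# Translates with matrices over a real field: approximations
-/

set_option linter.unusedSimpArgs false

open UpperHalfPlane hiding I
open Complex EisensteinSeries ModularForm MatrixGroups Manifold
open scoped Real Topology
open MvPolynomial Filter

namespace H32.T5

open H32.T3 H32.T4

lemma oY_smul {l a b c d y : ℂ} (hl : l ≠ 0) :
    oY (l * a) (l * b) (l * c) (l * d) y = oY a b c d y := by
  have e1 : l * c * y + l * d = l * (c * y + d) := by ring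
  have hm : mob (l * a) (l * b) (l * c) (l * d) y = mob a b c d y := by
    rw [mob, mob, e1, show l * a * y + l * b = l * (a * y + b) by ring, mul_div_mul_left _ _ hl]
  have hd : (l * a * (l * d) - l * b * (l * c)) / (l * c * y + l * d) ^ 2 =
      (a * d - b * c) / (c * y + d) ^ 2 := by
    rw [e1, show l * a * (l * d) - l * b * (l * c) = l ^ 2 * (a * d - b * c) by ring, mul_pow,
      mul_div_mul_left _ _ (pow_ne_zero 2 hl)]
  have hx : 12 * (l * c) / ((l * c * y + l * d) * Wf y) = 12 * c / ((c * y + d) * Wf y) := by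
    rw [e1, show 12 * (l * c) = l * (12 * c) by ring, mul_assoc, mul_div_mul_left _ _ hl]
  rw [oY, oY, wY, wY, xY, xY, hm, hd, hx]

lemma bound_near {m : ℕ} {ι : Type} [Fintype ι] (t : Fin m → ℝ) (P : ι → MvPolynomial (Fin m) ℤ) :
    ∃ C : ℕ, ∀ᶠ u in 𝓝 t, ∀ i, |(aeval u (P i) : ℝ)| ≤ C := by
  have h1 : ∀ i, ∃ C : ℕ, ∀ᶠ u in 𝓝 t, |(aeval u (P i) : ℝ)| ≤ C := by
    intro i
    obtain ⟨C, hC⟩ := exists_nat_gt |(aeval t (P i) : ℝ)|
    refine ⟨C, ?_⟩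
    filter_upwards [(Dat.aeval_cont (P i)).abs.continuousAt.eventually (gt_mem_nhds hC)] with u hu
    exact hu.le
  choose C hC using h1
  refine ⟨∑ i, C i, ?_⟩
  rw [eventually_all]
  intro i
  filter_upwards [hC i] with u hu
  refine hu.trans ?_
  exact_mod_cast Finset.single_le_sum (f := C) (fun _ _ ↦ Nat.zero_le _) (Finset.mem_univ i)

namespace Orb

variable {m n b : ℕ} (S : Orb m n b)

/-- Bounds near the parameters. -/
lemma near : ∃ (C : ℕ) (ε : ℝ), 2 ≤ C ∧ 0 < ε ∧ ∀ u : Fin m → ℝ,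
    (∀ s, |S.t s - u s| < ε) → (∀ s, |u s| ≤ C) ∧ ∀ i, 0 < (aeval u (S.dt i) : ℝ) ∧
      |(aeval u (S.pA i) : ℝ)| ≤ C ∧ |(aeval u (S.pB i) : ℝ)| ≤ C ∧
      |(aeval u (S.pC i) : ℝ)| ≤ C ∧ |(aeval u (S.pD i) : ℝ)| ≤ C := by
  obtain ⟨C1, h1⟩ := bound_near S.t S.pA
  obtain ⟨C2, h2⟩ := bound_near S.t S.pB
  obtain ⟨C3, h3⟩ := bound_near S.t S.pC
  obtain ⟨C4, h4⟩ := bound_near S.t S.pD
  obtain ⟨C5, h5⟩ := bound_near S.t (fun s : Fin m ↦ (X s : MvPolynomial (Fin m) ℤ))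
  have h6 : ∀ᶠ u in 𝓝 S.t, ∀ i, 0 < (aeval u (S.dt i) : ℝ) := by
    rw [eventually_all]
    intro i
    exact (Dat.aeval_cont (S.dt i)).continuousAt.eventually (lt_mem_nhds (S.hdet i))
  obtain ⟨ε, hε, hb⟩ := Metric.eventually_nhds_iff_ball.mp
    (h1.and (h2.and (h3.and (h4.and (h5.and h6)))))
  refine ⟨C1 + C2 + C3 + C4 + C5 + 2, ε, by omega, hε, fun u hu ↦ ?_⟩
  have hub : u ∈ Metric.ball S.t ε := by
    rw [Metric.mem_ball, dist_pi_lt_iff hε]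
    intro s
    rw [dist_comm, Real.dist_eq]
    exact hu s
  obtain ⟨k1, k2, k3, k4, k5, k6⟩ := hb u hub
  have p1 : (0 : ℝ) ≤ C1 := Nat.cast_nonneg _
  have p2 : (0 : ℝ) ≤ C2 := Nat.cast_nonneg _
  have p3 : (0 : ℝ) ≤ C3 := Nat.cast_nonneg _
  have p4 : (0 : ℝ) ≤ C4 := Nat.cast_nonneg _
  have p5 : (0 : ℝ) ≤ C5 := Nat.cast_nonneg _
  push_cast
  refine ⟨fun s ↦ ?_, fun i ↦ ⟨k6 i, ?_, ?_, ?_, ?_⟩⟩
  · have := k5 s
    rw [aeval_X] at this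
    linarith
  · have := k1 i
    linarith
  · have := k2 i
    linarith
  · have := k3 i
    linarith
  · have := k4 i
    linarith

/-- Integral entries at rational parameters. -/
lemma entries {D q : ℕ} (hq : 1 ≤ q) (p : Fin m → ℤ) (P : MvPolynomial (Fin m) ℤ)
    (hD : P.totalDegree ≤ D) {C : ℕ}
    (hC : |(aeval (fun s ↦ (p s : ℝ) / q) P : ℝ)| ≤ C) :
    ∃ a : ℤ, |a| ≤ ((C * q ^ D : ℕ) : ℤ) ∧
      (a : ℝ) = (q : ℝ) ^ D * aeval (fun s ↦ (p s : ℝ) / q) P ∧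
      (a : ℂ) = (q : ℂ) ^ D * aeval (fun s ↦ (p s : ℂ) / q) P := by
  obtain ⟨a, ha⟩ := hom_int P hD hq p
  have hqD : (0 : ℝ) ≤ (q : ℝ) ^ D := by positivity
  refine ⟨a, ?_, ha, ?_⟩
  · have h1 : |(a : ℝ)| ≤ C * (q : ℝ) ^ D := by
      rw [ha, abs_mul, abs_of_nonneg hqD, mul_comm (C : ℝ)]
      gcongr
    exact_mod_cast h1
  · have h2 := aeval_ofReal (fun s ↦ (p s : ℝ) / q) P
    push_cast at h2
    rw [h2]
    exact_mod_cast congrArg (fun z : ℝ ↦ (z : ℂ)) ha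

theorem step (h4 : ∀ c, E₄ (S.y c) ≠ 0) (h6 : ∀ c, E₆ (S.y c) ≠ 0)
    (hj : ∀ c, IsAlgebraic ℤ (jf (S.y c))) : ∃ A : ℕ, ∀ κ : ℕ,
    ∃ (κ' : ℕ) (Q0 : ℕ), ∀ (q : ℕ) (p : Fin m → ℤ), Q0 ≤ q →
      (∀ s, |S.t s - p s / q| < Real.exp (-(q : ℝ) ^ κ')) →
      ∃ H : ℕ, q ≤ H ∧ NFd A H (S.V (fun s ↦ (p s : ℂ) / q)) ∧
        Real.exp (-(q : ℝ) ^ κ') < Real.exp (-(H : ℝ) ^ κ) := by
  classical
  choose Ac hAc using fun c ↦ orb_heights (S.y c) (h4 c) (h6 c) (hj c)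
  set A0 : ℕ := ∑ c, Ac c with hA0
  have hAle : ∀ c, Ac c ≤ A0 := fun c ↦
    Finset.single_le_sum (f := Ac) (fun _ _ ↦ Nat.zero_le _) (Finset.mem_univ c)
  obtain ⟨C, ε, hC, hε, hnear⟩ := S.near
  set D : ℕ := ∑ i, ((S.pA i).totalDegree + (S.pB i).totalDegree + (S.pC i).totalDegree +
    (S.pD i).totalDegree) with hD
  have hDi : ∀ i, (S.pA i).totalDegree ≤ D ∧ (S.pB i).totalDegree ≤ D ∧
      (S.pC i).totalDegree ≤ D ∧ (S.pD i).totalDegree ≤ D := fun i ↦ by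
    have := Finset.single_le_sum (f := fun i ↦ (S.pA i).totalDegree + (S.pB i).totalDegree +
      (S.pC i).totalDegree + (S.pD i).totalDegree) (fun _ _ ↦ Nat.zero_le _) (Finset.mem_univ i)
    refine ⟨?_, ?_, ?_, ?_⟩ <;> omega
  refine ⟨A0 * (n + 1) + 2, fun κ ↦ ?_⟩
  set E : ℕ := D + 1 with hE
  refine ⟨E * κ + 1, ⌈(C : ℝ) ^ κ + 1 + 1⌉₊ + ⌈|Real.log ε|⌉₊ + 1, fun q p hq hp ↦ ?_⟩
  have hqC : (C : ℝ) ^ κ + 1 + 1 ≤ q := by
    refine (Nat.le_ceil _).trans ?_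
    exact_mod_cast (by omega : ⌈(C : ℝ) ^ κ + 1 + 1⌉₊ ≤ q)
  have hqε : |Real.log ε| < q := by
    refine lt_of_le_of_lt (Nat.le_ceil _) ?_
    exact_mod_cast (by omega : ⌈|Real.log ε|⌉₊ < q)
  have hq1 : 1 ≤ q := by omega
  have hqr : (1 : ℝ) ≤ q := by exact_mod_cast hq1
  have hq0 : (q : ℝ) ≠ 0 := by positivity
  have hqc : (q : ℂ) ≠ 0 := by exact_mod_cast hq0
  set u : Fin m → ℝ := fun s ↦ (p s : ℝ) / q with hu
  have huε : ∀ s, |S.t s - u s| < ε := fun s ↦ by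
    refine (hp s).trans_le ?_
    rw [← Real.le_log_iff_exp_le hε]
    have h1 : (q : ℝ) ≤ (q : ℝ) ^ (E * κ + 1) := le_self_pow₀ hqr (by omega)
    have h2 := neg_abs_le (Real.log ε)
    linarith
  obtain ⟨g1, g2⟩ := hnear u huε
  set H : ℕ := C * q ^ E with hH
  have hH2 : 2 ≤ H := by
    calc 2 = 2 * 1 := rfl
      _ ≤ C * q ^ E := Nat.mul_le_mul hC (Nat.one_le_pow _ _ hq1)
  have hqH : q ≤ H := by
    calc q = 1 * q ^ 1 := by ring
      _ ≤ C * q ^ E := Nat.mul_le_mul (by omega) (Nat.pow_le_pow_right hq1 (by omega))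
  have hCD : C * q ^ D ≤ H := Nat.mul_le_mul_left _ (Nat.pow_le_pow_right hq1 (by omega))
  have hCDz : ((C * q ^ D : ℕ) : ℤ) ≤ (H : ℤ) := by exact_mod_cast hCD
  refine ⟨H, hqH, ?_, ?_⟩
  · have hV : S.V (fun s ↦ (p s : ℂ) / q) = Sum.elim (fun x : Fin n × Fin 3 ↦
        (fun i : Fin n ↦ oY (aeval (fun s ↦ (p s : ℂ) / q) (S.pA i))
          (aeval (fun s ↦ (p s : ℂ) / q) (S.pB i)) (aeval (fun s ↦ (p s : ℂ) / q) (S.pC i))
          (aeval (fun s ↦ (p s : ℂ) / q) (S.pD i)) (S.y (S.c i))) x.1 x.2)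
        (fun s ↦ (p s : ℂ) / q) := rfl
    rw [hV]
    refine NFd.sum (by omega) (NFd.prod (A := A0) (n := n) (v := fun i : Fin n ↦
      oY (aeval (fun s ↦ (p s : ℂ) / q) (S.pA i))
          (aeval (fun s ↦ (p s : ℂ) / q) (S.pB i)) (aeval (fun s ↦ (p s : ℂ) / q) (S.pC i))
          (aeval (fun s ↦ (p s : ℂ) / q) (S.pD i)) (S.y (S.c i))) (by omega) fun i ↦ ?_)
      (NFd.rat hH2 hqH fun s ↦ ?_)
    · obtain ⟨k0, k1, k2, k3, k4⟩ := g2 i
      obtain ⟨a, a1, a2, a3⟩ := entries hq1 p (S.pA i) (hDi i).1 k1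
      obtain ⟨b, b1, b2, b3⟩ := entries hq1 p (S.pB i) (hDi i).2.1 k2
      obtain ⟨c, c1, c2, c3⟩ := entries hq1 p (S.pC i) (hDi i).2.2.1 k3
      obtain ⟨d, d1, d2, d3⟩ := entries hq1 p (S.pD i) (hDi i).2.2.2 k4
      have hl : (q : ℂ) ^ D ≠ 0 := pow_ne_zero _ hqc
      rw [← oY_smul (l := (q : ℂ) ^ D) hl, ← a3, ← b3, ← c3, ← d3]
      refine (hAc (S.c i) H a b c d hH2 (a1.trans hCDz) (b1.trans hCDz) (c1.trans hCDz)
        (d1.trans hCDz) ?_).mono (hAle _) (by omega)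
      have h1 : (0 : ℝ) < (a : ℝ) * d - b * c := by
        rw [a2, b2, c2, d2]
        have h2 : 0 < (aeval u (S.pA i) : ℝ) * aeval u (S.pD i) -
            aeval u (S.pB i) * aeval u (S.pC i) := by
          have := k0
          rwa [dt, map_sub, map_mul, map_mul] at this
        have h3 : (0 : ℝ) < (q : ℝ) ^ D * (q : ℝ) ^ D := by positivity
        calc (0 : ℝ) < (q : ℝ) ^ D * (q : ℝ) ^ D * ((aeval u (S.pA i) : ℝ) * aeval u (S.pD i) -
            aeval u (S.pB i) * aeval u (S.pC i)) := mul_pos h3 h2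
          _ = _ := by ring
      exact_mod_cast h1
    · have h5 := g1 s
      rw [hu] at h5
      simp only at h5
      rw [abs_div, abs_of_pos (by linarith : (0 : ℝ) < q), div_le_iff₀ (by linarith)] at h5
      have h6 : |p s| ≤ ((C * q : ℕ) : ℤ) := by exact_mod_cast h5
      refine h6.trans ?_
      have h7 : C * q ≤ H := Nat.mul_le_mul_left _ (Nat.le_self_pow (by omega) q)
      exact_mod_cast h7
  · have hlt := exp_cmp (L := 1) (C := C) (E := E) (κ := κ) (q := q) (by norm_num) (by omega) hqC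
    rw [one_mul] at hlt
    exact hlt

theorem appr (hS : SHier S.t) (h4 : ∀ c, E₄ (S.y c) ≠ 0) (h6 : ∀ c, E₆ (S.y c) ≠ 0)
    (hj : ∀ c, IsAlgebraic ℤ (jf (S.y c)))
    (hne : ∀ i, ¬ ∃ a b c d : ℚ, 0 < a * d - b * c ∧
      S.φ i S.x = ((a : ℂ) * (S.y (S.c i) : ℂ) + b) / ((c : ℂ) * (S.y (S.c i) : ℂ) + d))
    (hrel : ∀ i j, i ≠ j → ¬ ∃ a b c d : ℚ, 0 < a * d - b * c ∧
      S.φ j S.x = ((a : ℂ) * S.φ i S.x + b) / ((c : ℂ) * S.φ i S.x + d)) :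
    ∃ A : ℕ, ∀ κ : ℕ, ∃ (H : ℕ → ℕ) (r : ℕ → Fin m → ℂ), (∀ k, k + 2 ≤ H k) ∧
      (∀ k, NFd A (H k) (S.V (r k))) ∧
      (∀ k, ‖r k - S.x‖ ≤ Real.exp (-(H k : ℝ) ^ κ)) ∧ Tendsto r atTop (𝓝 S.x) ∧
      AlgebraicIndependent ℂ (Sum.elim
        (fun p : Fin n × Fin 3 ↦ mkU (fun k ↦ ee (S.φ p.1 (r k)) p.2))
        (fun s : Fin m ↦ mkU (fun k ↦ r k s))) := by
  obtain ⟨A, hA⟩ := S.step h4 h6 hj
  refine ⟨A, fun κ ↦ ?_⟩
  obtain ⟨κ', Q0, hstep⟩ := hA (κ + 1)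
  obtain ⟨σ, hσ⟩ := hS κ'
  choose q hq p hp1 hp2 using fun k : ℕ ↦ hσ (Q0 + k + 2)
  choose H hH hV hlt using fun k ↦ hstep (q k) (p k) (le_trans (by omega) (hq k))
    (fun s ↦ (hp1 k s).2)
  set r : ℕ → Fin m → ℂ := fun k s ↦ (p k s : ℂ) / q k with hr
  have hrn : ∀ k s, ‖r k s - S.x s‖ = |S.t s - p k s / q k| := fun k s ↦ by
    have e : r k s - S.x s = (((p k s : ℝ) / q k - S.t s : ℝ) : ℂ) := by
      rw [hr, x]
      push_cast
      rfl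
    rw [e, Complex.norm_real, Real.norm_eq_abs, abs_sub_comm]
  have hHk : ∀ k, k + 2 ≤ H k := fun k ↦ le_trans (by have := hq k; omega) (hH k)
  have hH1 : ∀ k, (1 : ℝ) ≤ H k := fun k ↦ by
    have := hHk k
    exact_mod_cast (by omega : 1 ≤ H k)
  have hle1 : ∀ k s, |S.t s - p k s / q k| ≤ 1 := fun k s ↦ by
    refine ((hp1 k s).2.le).trans (Real.exp_le_one_iff.mpr ?_)
    have : (0 : ℝ) ≤ (q k : ℝ) ^ κ' := by positivity
    linarith
  have hbd : ∀ k, ‖r k - S.x‖ ≤ Real.exp (-(H k : ℝ) ^ (κ + 1)) := fun k ↦ by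
    rw [pi_norm_le_iff_of_nonneg (Real.exp_pos _).le]
    intro s
    have h1 := hrn k s
    rw [Pi.sub_apply, h1]
    exact ((hp1 k s).2.le).trans (hlt k).le
  have htend : Tendsto r atTop (𝓝 S.x) := by
    rw [tendsto_iff_norm_sub_tendsto_zero]
    have h1 : Tendsto (fun n : ℕ ↦ Real.exp (-(n : ℝ))) atTop (𝓝 0) :=
      Real.tendsto_exp_neg_atTop_nhds_zero.comp tendsto_natCast_atTop_atTop
    refine squeeze_zero (fun _ ↦ norm_nonneg _) (fun k ↦ ?_) h1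
    refine (hbd k).trans (Real.exp_le_exp.mpr (neg_le_neg ?_))
    have h2 : (k : ℝ) ≤ H k := by
      have := hHk k
      exact_mod_cast (by omega : k ≤ H k)
    exact h2.trans (le_self_pow₀ (hH1 k) (by omega))
  refine ⟨H, r, hHk, hV, fun k ↦ (hbd k).trans (Real.exp_le_exp.mpr (neg_le_neg ?_)), htend, ?_⟩
  · exact pow_le_pow_right₀ (hH1 k) (by omega)
  · exact ult_ind S.x S.φ S.an_φ S.im_φ (S.nonvan_φ hne hrel) r htend σ
      (Eventually.of_forall fun k s ↦ by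
        rw [hrn]
        exact (hp1 k s).1) (fun C ↦ by
        filter_upwards [eventually_ge_atTop C] with k hk a b hab
        rw [hrn, hrn]
        refine (hp2 k a b hab).le.trans ?_
        exact pow_le_pow_of_le_one (abs_nonneg _) (hle1 k _) (by omega))

end Orb

end H32.T5
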