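import Pool.Agent.H32.T5.Y5

/-!
# Translates with matrices over a real field: independence of the values
-/

set_option linter.unusedSimpArgs false

open UpperHalfPlane hiding I
open Complex EisensteinSeries ModularForm MatrixGroups Manifold
open scoped Real Topology
open MvPolynomial Filter Asymptotics

namespace H32.T5

open H32.T3 H32.T4 Height Height.AdmissibleAbsValues NumberField

/-- Relations transfer to the approximations. -/
lemma vanish {ι : Type} [Fintype ι] {m : ℕ} {x : Fin m → ℂ} {V : (Fin m → ℂ) → ι → ℂ} {A κ : ℕ}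
    (hκ : 2 * A < κ) {H : ℕ → ℕ} {r : ℕ → Fin m → ℂ} (hH : ∀ k, k + 2 ≤ H k)
    (hN : ∀ k, NFd A (H k) (V (r k))) (hb : ∀ k, ‖r k - x‖ ≤ Real.exp (-(H k : ℝ) ^ κ))
    (hr : Tendsto r atTop (𝓝 x)) (G : MvPolynomial ι ℤ)
    (hd : DifferentiableAt ℂ (fun s ↦ aeval (V s) G) x) (h0 : aeval (V x) G = 0) :
    ∀ᶠ k in atTop, aeval (V (r k)) G = 0 := by
  obtain ⟨C, hC0, hC⟩ := NFd.liouville A G
  have hO : (fun s ↦ aeval (V s) G) =O[𝓝 x] (fun s ↦ s - x) := by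
    have h1 := hd.isBigO_sub
    rw [h0] at h1
    simpa using h1
  obtain ⟨C', hC'0, hC'⟩ := hO.exists_pos
  rw [IsBigOWith] at hC'
  obtain ⟨H0, hH0⟩ := num_contra (C := C) (2 * A) κ hκ hC'0
  have h2 : ∀ᶠ k : ℕ in atTop, H0 ≤ (k : ℝ) := tendsto_natCast_atTop_atTop.eventually_ge_atTop H0
  filter_upwards [hr.eventually hC', h2] with k h3 h4
  have hk := hH k
  rcases hC (H k) (V (r k)) (by omega) (hN k) with h5 | h5
  · exact h5
  exfalso
  have h7 : H0 ≤ (H k : ℝ) := h4.trans (by exact_mod_cast (by omega : k ≤ H k))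
  have h8 := hH0 _ h7
  have h10 : ‖aeval (V (r k)) G‖ ≤ C' * Real.exp (-(H k : ℝ) ^ κ) :=
    h3.trans (by have := hb k; gcongr)
  linarith

lemma diff_aevalV {ι : Type} {m : ℕ} {x : Fin m → ℂ} {V : (Fin m → ℂ) → ι → ℂ}
    (h : ∀ i, DifferentiableAt ℂ (fun s ↦ V s i) x) (G : MvPolynomial ι ℤ) :
    DifferentiableAt ℂ (fun s ↦ aeval (V s) G) x := by
  induction G using MvPolynomial.induction_on with
  | C c =>
    simp only [MvPolynomial.aeval_C]
    exact differentiableAt_const _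
  | add p q hp hq =>
    simp only [map_add]
    exact hp.add hq
  | mul_X p i hp =>
    simp only [map_mul, MvPolynomial.aeval_X]
    exact hp.mul (h i)

namespace Orb

variable {m n b : ℕ} (S : Orb m n b)

lemma an_comp {g : ℂ → ℂ} {i : Fin n} (hg : AnalyticAt ℂ g (S.φ i S.x)) :
    AnalyticAt ℂ (fun s ↦ g (S.φ i s)) S.x :=
  AnalyticAt.fun_comp (g := g) (f := S.φ i) hg (S.an_φ i)

lemma diff_jc (i : Fin n) : DifferentiableAt ℂ (fun s ↦ S.V s (Sum.inl (i, 0))) S.x := by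
  have d4 : AnalyticAt ℂ (fun s ↦ e4 (S.φ i s)) S.x := S.an_comp (analytic_E4 _ (S.im_φ i))
  have d6 : AnalyticAt ℂ (fun s ↦ e6 (S.φ i s)) S.x := S.an_comp (analytic_E6 _ (S.im_φ i))
  have h1 : AnalyticAt ℂ (fun s ↦ 1728 * e4 (S.φ i s) ^ 3 /
      (e4 (S.φ i s) ^ 3 - e6 (S.φ i s) ^ 2)) S.x :=
    AnalyticAt.fun_div (analyticAt_const.fun_mul (d4.fun_pow 3))
      ((d4.fun_pow 3).fun_sub (d6.fun_pow 2)) disc_ne
  exact h1.differentiableAt

lemma diff_V (h4 : ∀ c, E₄ (S.y c) ≠ 0) (h6 : ∀ c, E₆ (S.y c) ≠ 0)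
    (hφ : ∀ i, e4 (S.φ i S.x) ≠ 0) (j : (Fin n × Fin 3) ⊕ Fin m) :
    DifferentiableAt ℂ (fun s ↦ S.V s j) S.x := by
  have hP : ∀ p : MvPolynomial (Fin m) ℤ,
      AnalyticAt ℂ (fun s : Fin m → ℂ ↦ aeval s p) S.x := fun p ↦ an_aeval p S.x
  have hden : ∀ i, AnalyticAt ℂ (S.den i) S.x := fun i ↦ S.an_den i S.x
  rcases j with ⟨i, l⟩ | s
  · have y4 : e4 (S.y (S.c i) : ℂ) ≠ 0 := by rw [e4, ofComplex_apply]; exact h4 _
    have y6 : e6 (S.y (S.c i) : ℂ) ≠ 0 := by rw [e6, ofComplex_apply]; exact h6 _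
    have yW : Wf (S.y (S.c i) : ℂ) ≠ 0 := Wf_ne y4 y6
    have hq : AnalyticAt ℂ (fun s : Fin m → ℂ ↦ (aeval s (S.pA i) * aeval s (S.pD i) -
        aeval s (S.pB i) * aeval s (S.pC i)) / S.den i s ^ 2) S.x :=
      AnalyticAt.fun_div (((hP _).fun_mul (hP _)).fun_sub ((hP _).fun_mul (hP _)))
        ((hden i).fun_pow 2) (pow_ne_zero 2 (S.den_x i))
    have d4 : AnalyticAt ℂ (fun s ↦ e4 (S.φ i s)) S.x := S.an_comp (analytic_E4 _ (S.im_φ i))
    have d6 : AnalyticAt ℂ (fun s ↦ e6 (S.φ i s)) S.x := S.an_comp (analytic_E6 _ (S.im_φ i))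
    have d2 : AnalyticAt ℂ (fun s ↦ e2 (S.φ i s)) S.x := S.an_comp (analytic_E2 _ (S.im_φ i))
    fin_cases l
    · exact S.diff_jc i
    · have h1 : AnalyticAt ℂ (fun s ↦ (aeval s (S.pA i) * aeval s (S.pD i) -
          aeval s (S.pB i) * aeval s (S.pC i)) / S.den i s ^ 2 * (e6 (S.φ i s) / e4 (S.φ i s)) *
          (e4 (S.y (S.c i) : ℂ) / e6 (S.y (S.c i) : ℂ))) S.x :=
        (hq.fun_mul (AnalyticAt.fun_div d6 d4 (hφ i))).fun_mul analyticAt_const
      exact h1.differentiableAt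
    · have h1 : AnalyticAt ℂ (fun s ↦ (aeval s (S.pA i) * aeval s (S.pD i) -
          aeval s (S.pB i) * aeval s (S.pC i)) / S.den i s ^ 2 * e2 (S.φ i s) *
          (e4 (S.y (S.c i) : ℂ) / e6 (S.y (S.c i) : ℂ)) - ps (S.y (S.c i) : ℂ) -
          12 * aeval s (S.pC i) / (S.den i s * Wf (S.y (S.c i) : ℂ))) S.x :=
        ((((hq.fun_mul d2).fun_mul analyticAt_const).fun_sub analyticAt_const).fun_sub
          (AnalyticAt.fun_div (analyticAt_const.fun_mul (hP _))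
            ((hden i).fun_mul analyticAt_const) (mul_ne_zero (S.den_x i) yW)))
      exact h1.differentiableAt
  · exact differentiableAt_pi.mp differentiableAt_id s

lemma alg_alg {F E : Type} [Field F] [Field E] [Algebra F E] {e : E}
    (h : IsAlgebraic (algebraicClosure F E) e) : IsAlgebraic F e := h.restrictScalars F

lemma alg_of_cubic {e h : ℂ} (hh : IsAlgebraic ℤ h) (he : 4 * e ^ 3 - 2 * h * e - 2 * h = 0) :
    IsAlgebraic ℤ e := by
  have halgZQ : Algebra.IsAlgebraic ℤ ℚ := IsLocalization.isAlgebraic ℚ (nonZeroDivisors ℤ)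
  have hhQ : IsAlgebraic ℚ h := hh.extendScalars (RingHom.injective_int _)
  have hhK : h ∈ algebraicClosure ℚ ℂ := mem_algebraicClosure_iff.mpr hhQ
  have h1 : IsAlgebraic (algebraicClosure ℚ ℂ) e := by
    refine ⟨Polynomial.C 4 * Polynomial.X ^ 3 - Polynomial.C (2 * ⟨h, hhK⟩) * Polynomial.X -
      Polynomial.C (2 * ⟨h, hhK⟩), ?_, ?_⟩
    · intro h0
      have h1 := congrArg (fun p ↦ p.coeff 3) h0
      simp only [Polynomial.coeff_sub, Polynomial.coeff_C_mul, Polynomial.coeff_X_pow,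
        Polynomial.coeff_X, Polynomial.coeff_C, Polynomial.coeff_zero] at h1
      norm_num at h1
    · rw [map_sub, map_sub, map_mul, map_mul, map_pow, Polynomial.aeval_X, Polynomial.aeval_C,
        Polynomial.aeval_C, ← he]
      have e1 : algebraMap (algebraicClosure ℚ ℂ) ℂ (2 * ⟨h, hhK⟩) = 2 * h := rfl
      rw [e1]
      rfl
  have h2 : IsAlgebraic ℚ e := alg_alg h1
  exact (IsFractionRing.isAlgebraic_iff ℤ ℚ ℂ).mpr h2

/-- The final comparison. -/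
lemma end_contra {N C1 Λ0 Hk A' Λ : ℕ} {cc g d F C' : ℝ} (hcc0 : 0 < cc) (q2 : cc ≤ g)
    (hm2 : 2 / 3 * Real.exp (-(Λ : ℝ) ^ 22) ≤ d) (hρ2 : d ^ N * g ≤ F)
    (q1 : F ≤ C' * Real.exp (-(Hk : ℝ) ^ (44 * A' + 1)))
    (hm4 : C' / ((2 / 3) ^ N * cc) * Real.exp (-(Hk : ℝ) ^ (44 * A' + 1)) <
      Real.exp (-(N * ((C1 + Λ0 : ℕ) : ℝ) ^ 22 * (Hk : ℝ) ^ (44 * A'))))
    (hΛ : Λ = (C1 + Λ0) * Hk ^ (2 * A')) : False := by
  have hd0 : 0 ≤ d := le_trans (by positivity) hm2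
  have hm3 : (2 / 3) ^ N * Real.exp (-(Λ : ℝ) ^ 22) ^ N * cc ≤
      C' * Real.exp (-(Hk : ℝ) ^ (44 * A' + 1)) := by
    calc (2 / 3) ^ N * Real.exp (-(Λ : ℝ) ^ 22) ^ N * cc
        = (2 / 3 * Real.exp (-(Λ : ℝ) ^ 22)) ^ N * cc := by rw [mul_pow]
      _ ≤ d ^ N * g := by gcongr
      _ ≤ F := hρ2
      _ ≤ _ := q1
  have e1 : Real.exp (-(Λ : ℝ) ^ 22) ^ N =
      Real.exp (-(N * ((C1 + Λ0 : ℕ) : ℝ) ^ 22 * (Hk : ℝ) ^ (44 * A'))) := by
    rw [← Real.exp_nat_mul]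
    congr 1
    rw [hΛ]
    push_cast
    ring
  rw [← e1] at hm4
  rw [div_mul_eq_mul_div, div_lt_iff₀ (by positivity)] at hm4
  linarith

theorem ps_transc {A : ℕ} (hA : ∀ κ : ℕ, ∃ (H : ℕ → ℕ) (r : ℕ → Fin m → ℂ), (∀ k, k + 2 ≤ H k) ∧
      (∀ k, NFd A (H k) (S.V (r k))) ∧
      (∀ k, ‖r k - S.x‖ ≤ Real.exp (-(H k : ℝ) ^ κ)) ∧ Tendsto r atTop (𝓝 S.x) ∧
      AlgebraicIndependent ℂ (Sum.elim
        (fun p : Fin n × Fin 3 ↦ mkU (fun k ↦ ee (S.φ p.1 (r k)) p.2))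
        (fun s : Fin m ↦ mkU (fun k ↦ r k s))))
    (hdV : ∀ j, DifferentiableAt ℂ (fun s ↦ S.V s j) S.x) {a : Fin b}
    (h4 : E₄ (S.y a) ≠ 0) (h6 : E₆ (S.y a) ≠ 0) (hj : IsAlgebraic ℤ (jf (S.y a)))
    (halg : IsAlgebraic (Algebra.adjoin ℤ (Set.range (S.V S.x))) (ps (S.y a))) : False := by
  classical
  -- the constants
  obtain ⟨Λ0, hΛ⟩ := measure_tau (S.y a) h4 h6
  obtain ⟨e, he, hmeas⟩ := hΛ.self_of_nhds
  set hh : ℂ := 27 / 2 * (E₄ (S.y a) ^ 3 / E₆ (S.y a) ^ 2) with hhdef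
  have hint : ∀ c : ℤ, IsAlgebraic ℤ (c : ℂ) := fun c ↦ isAlgebraic_algebraMap (A := ℂ) c
  have halgh : IsAlgebraic ℤ hh := by
    have hΔ := discriminant_ne_zero (S.y a)
    have hJ1728 : jf (S.y a) - 1728 ≠ 0 := by
      intro h0
      have := jf_sub (S.y a)
      rw [h0, zero_mul] at this
      exact pow_ne_zero 2 h6 this.symm
    have e1 : hh = ((27 : ℤ) : ℂ) * ((2 : ℤ) : ℂ)⁻¹ * (jf (S.y a) *
        (jf (S.y a) - ((1728 : ℤ) : ℂ))⁻¹) := by
      push_cast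
      rw [hhdef, ← jf_mul, ← jf_sub]
      field_simp
    rw [e1]
    exact ((hint _).mul (hint _).inv).mul (hj.mul (hj.sub (hint _)).inv)
  have halge : IsAlgebraic ℤ e := alg_of_cubic halgh he
  obtain ⟨Ae, hAe⟩ := NFd.const halge
  obtain ⟨Ah, hAh⟩ := NFd.const halgh
  set A' : ℕ := A + (Ae + Ah) with hA'
  obtain ⟨p, hp0, hp⟩ := halg
  have hcoef : ∀ i, ∃ G : MvPolynomial ((Fin n × Fin 3) ⊕ Fin m) ℤ,
      MvPolynomial.aeval (S.V S.x) G =
        ((p.coeff i : Algebra.adjoin ℤ (Set.range (S.V S.x))) : ℂ) := by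
    intro i
    have h1 : ((p.coeff i : Algebra.adjoin ℤ (Set.range (S.V S.x))) : ℂ) ∈
        (MvPolynomial.aeval (S.V S.x) :
          MvPolynomial ((Fin n × Fin 3) ⊕ Fin m) ℤ →ₐ[ℤ] ℂ).range := by
      rw [← Algebra.adjoin_range_eq_range_aeval]
      exact (p.coeff i).2
    exact h1
  choose G hG using hcoef
  set N := p.natDegree with hn
  have hGn : MvPolynomial.aeval (S.V S.x) (G N) ≠ 0 := by
    rw [hG]
    intro h0
    have h1 : p.coeff N = 0 := by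
      apply Subtype.ext
      rw [h0]; rfl
    exact hp0 (Polynomial.leadingCoeff_eq_zero.mp h1)
  have hsum : ∑ i ∈ Finset.range (N + 1), MvPolynomial.aeval (S.V S.x) (G i) * ps (S.y a) ^ i =
      0 := by
    rw [← hp, Polynomial.aeval_eq_sum_range]
    refine Finset.sum_congr rfl fun i _ ↦ ?_
    rw [hG]
    rfl
  have hn0 : N ≠ 0 := by
    intro h0
    rw [h0] at hsum hGn
    rw [zero_add, Finset.sum_range_one, pow_zero, mul_one] at hsum
    exact hGn hsum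
  -- the function
  set F : (Fin m → ℂ) → ℂ := fun s ↦
    ∑ i ∈ Finset.range (N + 1), MvPolynomial.aeval (S.V s) (G i) * ps (S.y a) ^ i with hF
  have hFd : DifferentiableAt ℂ F S.x := by
    rw [hF]
    refine DifferentiableAt.fun_sum fun i _ ↦ ?_
    exact (diff_aevalV hdV (G i)).mul_const _
  have hFO : F =O[𝓝 S.x] (fun w ↦ w - S.x) := by
    have h1 := hFd.isBigO_sub
    have h2 : F S.x = 0 := hsum
    rw [h2] at h1
    simpa using h1
  obtain ⟨C', hC'0, hC'⟩ := hFO.exists_pos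
  rw [IsBigOWith] at hC'
  have hgpos : 0 < ‖MvPolynomial.aeval (S.V S.x) (G N)‖ := norm_pos_iff.mpr hGn
  have hgc : ∀ᶠ w in 𝓝 S.x, ‖MvPolynomial.aeval (S.V S.x) (G N)‖ / 2 <
      ‖MvPolynomial.aeval (S.V w) (G N)‖ := by
    have h1 := ((diff_aevalV hdV (G N)).continuousAt.norm)
    refine h1.eventually_const_lt ?_
    linarith
  set cc : ℝ := ‖MvPolynomial.aeval (S.V S.x) (G N)‖ / 2 with hcc
  have hcc0 : 0 < cc := by positivity
  -- the root lemma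
  obtain ⟨C1, hC1⟩ := NFd.root (ι := ((Fin n × Fin 3) ⊕ Fin m) ⊕ (Unit ⊕ Unit)) A'
    (fun i ↦ rename Sum.inl (G i)) N
  obtain ⟨H, r, hH, hN, hb, hr, -⟩ := hA (44 * A' + 1)
  obtain ⟨H0, hH0⟩ := num_contra (C := N * ((C1 + Λ0 : ℕ) : ℝ) ^ 22)
    (C' := C' / ((2 / 3) ^ N * cc)) (44 * A') (44 * A' + 1) (by omega) (by positivity)
  have hlarge : ∀ᶠ k : ℕ in atTop, H0 ≤ (k : ℝ) :=
    tendsto_natCast_atTop_atTop.eventually_ge_atTop H0
  obtain ⟨k, q1, q2, q5⟩ := ((hr.eventually hC').and ((hr.eventually hgc).and hlarge)).exists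
  have hHk := hH k
  have hH2 : 2 ≤ H k := by omega
  have hGk : MvPolynomial.aeval (S.V (r k)) (G N) ≠ 0 := by
    intro h0
    rw [h0, norm_zero] at q2
    linarith
  -- the family with the constants
  set v : ((Fin n × Fin 3) ⊕ Fin m) ⊕ (Unit ⊕ Unit) → ℂ :=
    Sum.elim (S.V (r k)) (Sum.elim (fun _ ↦ e) (fun _ ↦ hh)) with hv
  have hvN : NFd A' (H k) v :=
    NFd.sum (by omega) (hN k) (NFd.sum (by omega) (hAe _ hH2) (hAh _ hH2))
  have hvG : ∀ i, aeval v (rename Sum.inl (G i)) = aeval (S.V (r k)) (G i) := by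
    intro i
    rw [aeval_rename]
    rfl
  -- the root
  set f : Polynomial ℂ := ∑ i ∈ Finset.range (N + 1),
    Polynomial.C (MvPolynomial.aeval (S.V (r k)) (G i)) * Polynomial.X ^ i with hf
  have hfc : f.coeff N = MvPolynomial.aeval (S.V (r k)) (G N) := by
    simp only [hf, Polynomial.finsetSum_coeff, Polynomial.coeff_C_mul, Polynomial.coeff_X_pow]
    rw [Finset.sum_eq_single N]
    · rw [if_pos rfl, mul_one]
    · intro i _ hi
      rw [if_neg (Ne.symm hi), mul_zero]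
    · intro hM
      exact absurd (Finset.mem_range.mpr (Nat.lt_succ_self N)) hM
  have hfd : f.natDegree ≤ N := by
    refine Polynomial.natDegree_sum_le_of_forall_le _ _ fun i hi ↦ ?_
    exact (Polynomial.natDegree_C_mul_X_pow_le _ _).trans
      (Nat.lt_succ_iff.mp (Finset.mem_range.mp hi))
  have hfd' : f.natDegree = N :=
    le_antisymm hfd (Polynomial.le_natDegree_of_ne_zero (by rw [hfc]; exact hGk))
  have hfev : ∀ y, f.eval y =
      ∑ i ∈ Finset.range (N + 1), MvPolynomial.aeval (S.V (r k)) (G i) * y ^ i := by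
    intro y
    rw [hf, Polynomial.eval_finsetSum]
    refine Finset.sum_congr rfl fun i _ ↦ ?_
    rw [Polynomial.eval_mul, Polynomial.eval_C, Polynomial.eval_pow, Polynomial.eval_X]
  obtain ⟨ρ, hρ, hρ2⟩ := exists_near_root f (by rw [hfd']; exact hn0) (ps (S.y a))
  rw [hfd', Polynomial.leadingCoeff, hfd', hfc, hfev] at hρ2
  rw [hfev] at hρ
  obtain ⟨L, iF, iN, s, u, x4, s0, s4, b0, b1, b3⟩ :=
    hC1 (H k) v hH2 hvN (by rw [hvG]; exact hGk) ρ (by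
      rw [← hρ]
      refine Finset.sum_congr rfl fun i _ ↦ ?_
      rw [hvG])
  set Λ : ℕ := (C1 + Λ0) * H k ^ (2 * A') with hΛdef
  have hHp : 1 ≤ H k ^ (2 * A') := Nat.one_le_pow _ _ (by omega)
  have hle : C1 * H k ^ (2 * A') ≤ Λ := by
    rw [hΛdef]; gcongr; omega
  have hle' : Real.exp ((C1 * H k ^ (2 * A') : ℕ) : ℝ) ≤ Real.exp (Λ : ℝ) := by
    apply Real.exp_le_exp.mpr
    exact_mod_cast hle
  have hΛ0 : Λ0 ≤ Λ := by
    rw [hΛdef]
    calc Λ0 ≤ (C1 + Λ0) * 1 := by omega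
      _ ≤ _ := Nat.mul_le_mul_left _ hHp
  have hm := hmeas L s (u (Sum.inr (Sum.inl ()))) (u (Sum.inr (Sum.inr ()))) x4 Λ hΛ0
    (b0.trans hle) ((b1 _).trans hle') ((b1 _).trans hle')
    (b3.trans hle') (s0 _) (s0 _)
  rw [s4] at hm
  have hpsτ : E2 (S.y a) * E₄ (S.y a) / E₆ (S.y a) = ps (S.y a) := by
    rw [ps, e2, e4, e6, ofComplex_apply]
  rw [hpsτ, ← mul_sub, norm_mul] at hm
  have h32 : ‖(3 / 2 : ℂ)‖ = 3 / 2 := by norm_num
  rw [h32] at hm
  have hm2 : 2 / 3 * Real.exp (-(Λ : ℝ) ^ 22) ≤ ‖ps (S.y a) - ρ‖ := by linarith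
  have hm4 := hH0 (H k) (q5.trans (by exact_mod_cast (by omega : k ≤ H k)))
  exact end_contra hcc0 q2.le hm2 hρ2 (q1.trans (mul_le_mul_of_nonneg_left (hb k) hC'0.le)) hm4
    hΛdef

theorem V_indep (hS : SHier S.t) (h4 : ∀ c, E₄ (S.y c) ≠ 0) (h6 : ∀ c, E₆ (S.y c) ≠ 0)
    (hj : ∀ c, IsAlgebraic ℤ (jf (S.y c)))
    (hne : ∀ i, ¬ ∃ a b c d : ℚ, 0 < a * d - b * c ∧
      S.φ i S.x = ((a : ℂ) * (S.y (S.c i) : ℂ) + b) / ((c : ℂ) * (S.y (S.c i) : ℂ) + d))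
    (hrel : ∀ i j, i ≠ j → ¬ ∃ a b c d : ℚ, 0 < a * d - b * c ∧
      S.φ j S.x = ((a : ℂ) * S.φ i S.x + b) / ((c : ℂ) * S.φ i S.x + d)) (a : Fin b) :
    (∀ i, e4 (S.φ i S.x) ≠ 0 ∧ e6 (S.φ i S.x) ≠ 0) ∧
    AlgebraicIndependent ℤ (Sum.elim (fun _ : Unit ↦ ps (S.y a)) (S.V S.x)) := by
  classical
  obtain ⟨A, hA⟩ := S.appr hS h4 h6 hj hne hrel
  -- nonvanishing
  have hφ : ∀ i, e4 (S.φ i S.x) ≠ 0 ∧ e6 (S.φ i S.x) ≠ 0 := by
    intro i
    obtain ⟨H, r, hH, hN, hb, hr, hX⟩ := hA (2 * A + 1)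
    constructor
    · intro h0
      have h1 := vanish (by omega) hH hN hb hr (X (Sum.inl (i, 0)))
        (by simp only [aeval_X]; exact S.diff_jc i)
        (by rw [aeval_X]; exact jc_eq_zero.mpr h0)
      apply hX.ne_zero (Sum.inl (i, 1))
      refine mkU_zero_of_ev (h1.mono fun k hk ↦ ?_)
      rw [aeval_X] at hk
      exact jc_eq_zero.mp hk
    · intro h0
      have h1 := vanish (by omega) hH hN hb hr (X (Sum.inl (i, 0)) - C 1728)
        (by simp only [map_sub, aeval_X, aeval_C]; exact (S.diff_jc i).sub_const _)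
        (by
          rw [map_sub, aeval_X, aeval_C]
          have : S.V S.x (Sum.inl (i, 0)) = 1728 := jc_eq_1728.mpr h0
          rw [this]
          simp)
      apply hX.ne_zero (Sum.inl (i, 2))
      refine mkU_zero_of_ev (h1.mono fun k hk ↦ ?_)
      rw [map_sub, aeval_X, aeval_C] at hk
      have h2 : S.V (r k) (Sum.inl (i, 0)) = 1728 := by
        rw [sub_eq_zero] at hk
        rw [hk]
        simp
      exact jc_eq_1728.mp h2
  refine ⟨hφ, ?_⟩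
  have hdV := S.diff_V h4 h6 (fun i ↦ (hφ i).1)
  -- independence of the family
  have hV : AlgebraicIndependent ℤ (S.V S.x) := by
    obtain ⟨H, r, hH, hN, hb, hr, hX⟩ := hA (2 * A + 1)
    have hU := S.rank h4 h6 r hr hX
    rw [algebraicIndependent_iff]
    intro P hP
    have h2 := vanish (by omega) hH hN hb hr P (diff_aevalV hdV P) hP
    have h3 : aeval (fun j ↦ mkU (fun k ↦ S.V (r k) j)) P = 0 := by
      rw [aeval_mkUZ']
      exact mkU_zero_of_ev h2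
    have h4 : aeval (fun j ↦ mkU (fun k ↦ S.V (r k) j)) (MvPolynomial.map (Int.castRingHom ℂ) P) =
        0 := by
      rw [← h3, ← algebraMap_int_eq, aeval_map_algebraMap]
    have h5 := (algebraicIndependent_iff.mp hU) _ h4
    exact (MvPolynomial.map_injective _ (RingHom.injective_int _)) (by rw [h5, map_zero])
  rw [AlgebraicIndependent.sumElim_iff]
  refine ⟨hV, ?_⟩
  rw [algebraicIndependent_unique_type_iff]
  intro halg
  exact S.ps_transc hA hdV (h4 a) (h6 a) (hj a) halg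

end Orb

end H32.T5
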