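import Pool.Agent.H32.T5.Y6

/-!
# Translates with matrices over a real field: the numbers of the problem
-/

set_option linter.unusedSimpArgs false

open UpperHalfPlane hiding I
open Complex EisensteinSeries ModularForm MatrixGroups Manifold
open scoped Real Topology
open Filter

namespace H32.T5

open H32.T3 H32.T4

/-- The rank of a finite family. -/
lemma eRk_range_le {ι : Type} [Finite ι] (W : ι → ℂ) {δ : ℕ}
    (h : ∀ (k : ℕ) (f : Fin k → ι), AlgebraicIndependent ℚ (fun j ↦ W (f j)) → k ≤ δ) :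
    (AlgebraicIndependent.matroid ℚ ℂ).eRk (Set.range W) ≤ (δ : ℕ∞) := by
  classical
  set M := AlgebraicIndependent.matroid ℚ ℂ with hM
  obtain ⟨B, hB'⟩ := M.exists_isBasis (Set.range W) (by rw [hM]; exact Set.subset_univ _)
  have hBfin : B.Finite := (Set.finite_range W).subset hB'.subset
  rw [← hB'.encard_eq_eRk, hBfin.encard_eq_coe_toFinset_card]
  have hBi := hB'.indep
  rw [hM, AlgebraicIndependent.matroid_indep_iff] at hBi
  obtain ⟨f, hf⟩ := extract_indep' W (B := B) hBi hB'.subset (N := hBfin.toFinset.card) (by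
    rw [hBfin.encard_eq_coe_toFinset_card])
  exact_mod_cast h _ f hf

namespace Orb

variable {m n b : ℕ} (S : Orb m n b)

/-- The points. -/
noncomputable def pt (B : Finset (Fin b)) : Fin n ⊕ B → ℂ :=
  Sum.elim (fun i ↦ S.φ i S.x) (fun c ↦ (S.y c.1 : ℂ))

theorem final_Y {E4 E6 J : ℂ → ℂ}
    (h4 : ∀ τ : ℂ, E4 τ = 1 + 240 * ∑' m : ℕ, ((ArithmeticFunction.sigma 3 (m + 1) : ℕ) : ℂ) *
      Complex.exp (2 * (Real.pi : ℂ) * Complex.I * ((m : ℂ) + 1) * τ))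
    (h6 : ∀ τ : ℂ, E6 τ = 1 - 504 * ∑' m : ℕ, ((ArithmeticFunction.sigma 5 (m + 1) : ℕ) : ℂ) *
      Complex.exp (2 * (Real.pi : ℂ) * Complex.I * ((m : ℂ) + 1) * τ))
    (hJ : ∀ τ : ℂ, J τ = 1728 * E4 τ ^ 3 / (E4 τ ^ 3 - E6 τ ^ 2))
    (y4 : ∀ c, E₄ (S.y c) ≠ 0) (y6 : ∀ c, E₆ (S.y c) ≠ 0)
    (hj : ∀ c, IsAlgebraic ℚ (J (S.y c)))
    (hφ : ∀ i, e4 (S.φ i S.x) ≠ 0 ∧ e6 (S.φ i S.x) ≠ 0) (a : Fin b)
    (hind : AlgebraicIndependent ℚ (Sum.elim (fun _ : Unit ↦ ps (S.y a)) (S.V S.x)))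
    (B : Finset (Fin b)) {δ : ℕ}
    (hδ : ∀ (k : ℕ) (h : Fin k → Fin b × Fin 3), (∀ j, (h j).1 ∈ B → (h j).2 = 0) →
      AlgebraicIndependent ℚ (fun j ↦ (![(S.y (h j).1 : ℂ), deriv J (S.y (h j).1),
        deriv (deriv J) (S.y (h j).1)] : Fin 3 → ℂ) (h j).2) → k ≤ δ)
    {ρ : ℕ} (g : Fin ρ → Fin n ⊕ B) (hg : AlgebraicIndependent ℚ (fun k ↦ S.pt B (g k))) :
    ∃ f : Fin (3 * n + 1 + ρ - δ) → (Fin n ⊕ B) × Fin 4, AlgebraicIndependent ℚ (fun k ↦
      (![S.pt B (f k).1, J (S.pt B (f k).1), deriv J (S.pt B (f k).1),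
        deriv (deriv J) (S.pt B (f k).1)] : Fin 4 → ℂ) (f k).2) := by
  classical
  set M := AlgebraicIndependent.matroid ℚ ℂ with hM
  set S4 : (Fin n ⊕ B) × Fin 4 → ℂ := fun u ↦
    (![S.pt B u.1, J (S.pt B u.1), deriv J (S.pt B u.1), deriv (deriv J) (S.pt B u.1)] :
      Fin 4 → ℂ) u.2 with hS4
  set W3 : {u : Fin b × Fin 3 // u.1 ∈ B → u.2 = 0} → ℂ := fun u ↦
    (![(S.y u.1.1 : ℂ), deriv J (S.y u.1.1), deriv (deriv J) (S.y u.1.1)] : Fin 3 → ℂ) u.1.2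
    with hW3
  set T : Set ℂ := Set.range S.x ∪ Set.range W3 with hT
  set D : Subalgebra ℚ ℂ := Algebra.adjoin ℚ (Set.range S4 ∪ T) with hD
  have hgen : ∀ v ∈ Set.range S4 ∪ T, IsAlgebraic D v := by
    intro v hv
    exact isAlgebraic_algebraMap (⟨v, Algebra.subset_adjoin hv⟩ : D)
  have aalg : ∀ v : ℂ, IsAlgebraic ℚ v → IsAlgebraic D v := fun v hv ↦
    hv.extendScalars (algebraMap ℚ D).injective
  have aQ : ∀ q : ℚ, IsAlgebraic D (q : ℂ) := fun q ↦ aalg _ (isAlgebraic_algebraMap (A := ℂ) q)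
  -- the base points
  have gy : ∀ c, 0 < (S.y c : ℂ).im ∧ e4 (S.y c : ℂ) ≠ 0 ∧ e6 (S.y c : ℂ) ≠ 0 := fun c ↦
    ⟨(S.y c).im_pos, by rw [e4, ofComplex_apply]; exact y4 c,
      by rw [e6, ofComplex_apply]; exact y6 c⟩
  have ay : ∀ c, IsAlgebraic D (S.y c : ℂ) := fun c ↦
    hgen _ (Or.inr (Or.inr ⟨⟨(c, 0), fun _ ↦ rfl⟩, rfl⟩))
  have ayJ : ∀ c, IsAlgebraic D (J (S.y c)) := fun c ↦ aalg _ (hj c)
  have ayJ1 : ∀ c, IsAlgebraic D (deriv J (S.y c)) := by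
    intro c
    by_cases hc : c ∈ B
    · exact hgen _ (Or.inl ⟨(Sum.inr ⟨c, hc⟩, 2), rfl⟩)
    · exact hgen _ (Or.inr (Or.inr ⟨⟨(c, 1), fun h ↦ absurd h hc⟩, rfl⟩))
  have ayJ2 : ∀ c, IsAlgebraic D (deriv (deriv J) (S.y c)) := by
    intro c
    by_cases hc : c ∈ B
    · exact hgen _ (Or.inl ⟨(Sum.inr ⟨c, hc⟩, 3), rfl⟩)
    · exact hgen _ (Or.inr (Or.inr ⟨⟨(c, 2), fun h ↦ absurd h hc⟩, rfl⟩))
  have aWp : ∀ w : ℂ, 0 < w.im → e4 w ≠ 0 → e6 w ≠ 0 → IsAlgebraic D (J w) →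
      IsAlgebraic D (deriv J w) → IsAlgebraic D (deriv (deriv J) w) →
      IsAlgebraic D (Wf w) ∧ IsAlgebraic D (ps w) := by
    intro w h0 hB hC aJ aJ1 aJ2
    obtain ⟨v0, v1, v2⟩ := J_values h4 h6 hJ h0
    obtain ⟨f1, f2⟩ := psi_formula hB hC disc_ne v0 v1 v2
    constructor
    · have e1 : Wf w = -deriv J w * (J w)⁻¹ := f1
      rw [e1]
      exact aJ1.neg.mul aJ.inv
    · have e1 : ps w = ((6 : ℚ) : ℂ) * (((2 / 3 : ℚ) : ℂ) + ((1 / 2 : ℚ) : ℂ) * (J w *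
        (J w - ((1728 : ℚ) : ℂ))⁻¹) - deriv (deriv J) w *
          (J w * (deriv J w * (J w)⁻¹) ^ 2)⁻¹) := f2
      rw [e1]
      exact (aQ _).mul (((aQ _).add ((aQ _).mul (aJ.mul (aJ.sub (aQ _)).inv))).sub
        (aJ2.mul (aJ.mul ((aJ1.mul aJ.inv).pow 2)).inv))
  have aYW : ∀ c, IsAlgebraic D (Wf (S.y c)) ∧ IsAlgebraic D (ps (S.y c)) := fun c ↦
    aWp _ (gy c).1 (gy c).2.1 (gy c).2.2 (ayJ c) (ayJ1 c) (ayJ2 c)
  have aZW : ∀ i, IsAlgebraic D (Wf (S.φ i S.x)) ∧ IsAlgebraic D (ps (S.φ i S.x)) := fun i ↦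
    aWp _ (S.im_φ i) (hφ i).1 (hφ i).2 (hgen _ (Or.inl ⟨(Sum.inl i, 1), rfl⟩))
      (hgen _ (Or.inl ⟨(Sum.inl i, 2), rfl⟩)) (hgen _ (Or.inl ⟨(Sum.inl i, 3), rfl⟩))
  -- polynomials
  have aP0 : ∀ (D' : Subalgebra ℚ ℂ) (_ : ∀ s, IsAlgebraic D' (S.x s))
      (p : MvPolynomial (Fin m) ℤ), IsAlgebraic D' (MvPolynomial.aeval S.x p) := by
    intro D' hD' p
    induction p using MvPolynomial.induction_on with
    | C c =>
      rw [MvPolynomial.aeval_C]
      have : algebraMap ℤ ℂ c = algebraMap ℚ ℂ (c : ℚ) := by simp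
      rw [this]
      exact (isAlgebraic_algebraMap (R := ℚ) (A := ℂ) _).extendScalars
        (algebraMap ℚ D').injective
    | add p q hp hq =>
      rw [map_add]
      exact hp.add hq
    | mul_X p s hp =>
      rw [map_mul, MvPolynomial.aeval_X]
      exact hp.mul (hD' s)
  have ax : ∀ s, IsAlgebraic D (S.x s) := fun s ↦ hgen _ (Or.inr (Or.inl ⟨s, rfl⟩))
  have aP := aP0 D ax
  have aden : ∀ i, IsAlgebraic D (S.den i S.x) := fun i ↦ ((aP _).mul (ay _)).add (aP _)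
  have hquot : ∀ (z y : ℂ), e4 z ≠ 0 → e6 z ≠ 0 → e4 y ≠ 0 → e6 y ≠ 0 →
      e6 z / e4 z * (e4 y / e6 y) = Wf z * (Wf y)⁻¹ := by
    intro z y k1 k2 k3 k4
    have hpi : (π : ℂ) ≠ 0 := by exact_mod_cast Real.pi_ne_zero
    have hI := Complex.I_ne_zero
    rw [Wf, Wf]
    field_simp
  have aV : ∀ j, IsAlgebraic D (S.V S.x j) := by
    rintro (⟨i, l⟩ | s)
    · have hzz : mob (MvPolynomial.aeval S.x (S.pA i)) (MvPolynomial.aeval S.x (S.pB i))
          (MvPolynomial.aeval S.x (S.pC i)) (MvPolynomial.aeval S.x (S.pD i)) (S.y (S.c i)) =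
          S.φ i S.x := rfl
      have hdd : MvPolynomial.aeval S.x (S.pC i) * (S.y (S.c i) : ℂ) +
          MvPolynomial.aeval S.x (S.pD i) = S.den i S.x := rfl
      have aq : IsAlgebraic D ((MvPolynomial.aeval S.x (S.pA i) * MvPolynomial.aeval S.x (S.pD i) -
          MvPolynomial.aeval S.x (S.pB i) * MvPolynomial.aeval S.x (S.pC i)) *
          (S.den i S.x ^ 2)⁻¹) :=
        (((aP _).mul (aP _)).sub ((aP _).mul (aP _))).mul ((aden i).pow 2).inv
      obtain ⟨g0, g4, g6⟩ := gy (S.c i)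
      obtain ⟨z4, z6⟩ := hφ i
      fin_cases l
      · change IsAlgebraic D (jc (S.φ i S.x))
        have : jc (S.φ i S.x) = J (S.φ i S.x) := (J_values h4 h6 hJ (S.im_φ i)).1.symm
        rw [this]
        exact hgen _ (Or.inl ⟨(Sum.inl i, 1), rfl⟩)
      · change IsAlgebraic D (wY _ _ _ _ _)
        rw [wY, hzz, hdd, mul_assoc, hquot _ _ z4 z6 g4 g6, div_eq_mul_inv]
        exact aq.mul ((aZW i).1.mul (aYW _).1.inv)
      · change IsAlgebraic D (xY _ _ _ _ _)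
        have e1 : e2 (S.φ i S.x) * (e4 (S.y (S.c i)) / e6 (S.y (S.c i))) =
            ps (S.φ i S.x) * (Wf (S.φ i S.x) * (Wf (S.y (S.c i)))⁻¹) := by
          rw [← hquot _ _ z4 z6 g4 g6, ps]
          field_simp
        have e12 : (12 : ℂ) = ((12 : ℚ) : ℂ) := by norm_num
        rw [xY, hzz, hdd, mul_assoc, e1, div_eq_mul_inv, div_eq_mul_inv, e12]
        exact ((aq.mul ((aZW i).2.mul ((aZW i).1.mul (aYW _).1.inv))).sub (aYW _).2).sub
          (((aQ _).mul (aP _)).mul ((aden i).mul (aYW _).1).inv)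
    · exact ax s
  -- the rank of the numbers
  set F : Unit ⊕ ((Fin n × Fin 3) ⊕ Fin m) → ℂ :=
    Sum.elim (fun _ : Unit ↦ ps (S.y a)) (S.V S.x) with hF
  have hindM : M.Indep (Set.range F) := by
    rw [hM, AlgebraicIndependent.matroid_indep_iff]
    exact hind.to_subtype_range
  have hcardI : Fintype.card (Unit ⊕ ((Fin n × Fin 3) ⊕ Fin m)) = 3 * n + m + 1 := by
    simp only [Fintype.card_sum, Fintype.card_prod, Fintype.card_fin, Fintype.card_unit]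
    ring
  have hcard : (Set.range F).encard = ((3 * n + m + 1 : ℕ) : ℕ∞) := by
    rw [← Set.image_univ, hind.injective.encard_image, Set.encard_univ,
      ENat.card_eq_coe_fintype_card, hcardI]
  have hsub : Set.range F ⊆ M.closure (Set.range S4 ∪ T) := by
    rw [hM, AlgebraicIndependent.matroid_closure_eq]
    rintro _ ⟨u, rfl⟩
    change IsAlgebraic D (F u)
    rcases u with u | u
    · exact (aYW a).2
    · exact aV u
  have h1 : ((3 * n + m + 1 : ℕ) : ℕ∞) ≤ M.eRk (Set.range S4 ∪ T) := by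
    rw [← M.eRk_closure_eq, ← hcard]
    exact hindM.encard_le_eRk_of_subset hsub
  -- the rank of the points
  set Z : Set ℂ := Set.range (fun u : Fin n ⊕ B ↦ S4 (u, 0)) with hZ
  have hY : M.Indep (Set.range (fun k ↦ S4 (g k, 0))) := by
    rw [hM, AlgebraicIndependent.matroid_indep_iff]
    exact (show AlgebraicIndependent ℚ (fun k ↦ S4 (g k, 0)) from hg).to_subtype_range
  have hYcard : (Set.range (fun k ↦ S4 (g k, 0))).encard = (ρ : ℕ) := by
    rw [← Set.image_univ, (show AlgebraicIndependent ℚ (fun k ↦ S4 (g k, 0)) from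
      hg).injective.encard_image, Set.encard_univ]
    simp
  have h2 : (ρ : ℕ∞) ≤ M.eRk (Set.range S4 ∩ (Z ∪ T)) := by
    rw [← hYcard]
    refine hY.encard_le_eRk_of_subset ?_
    rintro _ ⟨k, rfl⟩
    exact ⟨⟨(g k, 0), rfl⟩, Or.inl ⟨g k, rfl⟩⟩
  have hZT : Z ⊆ M.closure T := by
    rw [hM, AlgebraicIndependent.matroid_closure_eq]
    rintro _ ⟨u, rfl⟩
    set DT : Subalgebra ℚ ℂ := Algebra.adjoin ℚ T with hDT
    have hgT : ∀ v ∈ T, IsAlgebraic DT v := by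
      intro v hv
      exact isAlgebraic_algebraMap (⟨v, Algebra.subset_adjoin hv⟩ : DT)
    have ayT : ∀ c, IsAlgebraic DT (S.y c : ℂ) := fun c ↦
      hgT _ (Or.inr ⟨⟨(c, 0), fun _ ↦ rfl⟩, rfl⟩)
    have aPT := aP0 DT (fun s ↦ hgT _ (Or.inl ⟨s, rfl⟩))
    change IsAlgebraic DT (S4 (u, 0))
    rcases u with i | c
    · change IsAlgebraic DT (S.φ i S.x)
      rw [φ, mob, div_eq_mul_inv]
      exact (((aPT _).mul (ayT _)).add (aPT _)).mul (((aPT _).mul (ayT _)).add (aPT _)).inv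
    · exact ayT c.1
  have hTr : M.eRk T ≤ ((m + δ : ℕ) : ℕ∞) := by
    calc M.eRk T ≤ M.eRk (Set.range S.x) + M.eRk (Set.range W3) := M.eRk_union_le_eRk_add_eRk _ _
      _ ≤ (m : ℕ∞) + (δ : ℕ∞) := by
        refine add_le_add ?_ (eRk_range_le W3 fun k f hf ↦ ?_)
        · calc M.eRk (Set.range S.x) ≤ (Set.range S.x).encard := M.eRk_le_encard _
            _ ≤ (Set.univ : Set (Fin m)).encard := by
              rw [← Set.image_univ]
              exact Set.encard_image_le _ _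
            _ = m := by simp
        · exact hδ k (fun j ↦ (f j).1) (fun j ↦ (f j).2) hf
      _ = _ := by push_cast; rfl
  have h3 : M.eRk (Z ∪ T) ≤ ((m + δ : ℕ) : ℕ∞) := by
    calc M.eRk (Z ∪ T) ≤ M.eRk (M.closure T) := by
          refine M.eRk_mono (Set.union_subset hZT ?_)
          refine M.subset_closure _ ?_
          rw [hM]
          exact Set.subset_univ _
      _ = M.eRk T := M.eRk_closure_eq _
      _ ≤ _ := hTr
  have h5 := M.eRk_submod (Set.range S4) (Z ∪ T)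
  have h7 : M.eRk (Set.range S4 ∪ T) ≤ M.eRk (Set.range S4 ∪ (Z ∪ T)) :=
    M.eRk_mono (Set.union_subset_union_right _ Set.subset_union_right)
  have h8 : (ρ : ℕ∞) + ((3 * n + m + 1 : ℕ) : ℕ∞) ≤ M.eRk (Set.range S4) + ((m + δ : ℕ) : ℕ∞) :=
    (add_le_add h2 (h1.trans h7)).trans (h5.trans (add_le_add le_rfl h3))
  obtain ⟨B', hB'⟩ := M.exists_isBasis (Set.range S4) (by rw [hM]; exact Set.subset_univ _)
  have hBsub : B' ⊆ Set.range S4 := hB'.subset
  have hBfin : B'.Finite := (Set.finite_range S4).subset hBsub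
  rw [← hB'.encard_eq_eRk] at h8
  refine extract_indep' S4 (B := B') ?_ hBsub ?_
  · have := hB'.indep
    rw [hM, AlgebraicIndependent.matroid_indep_iff] at this
    exact this
  · rw [hBfin.encard_eq_coe_toFinset_card] at h8 ⊢
    have h9 : ρ + (3 * n + m + 1) ≤ hBfin.toFinset.card + (m + δ) := by exact_mod_cast h8
    have h10 : 3 * n + 1 + ρ - δ ≤ hBfin.toFinset.card := by omega
    exact_mod_cast h10

end Orb

end H32.T5
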