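import Pool.Agent.H32.T5.Y7

/-!
# Translates with matrices over a real field: the main theorem
-/

set_option linter.unusedSimpArgs false

open UpperHalfPlane hiding I
open Complex EisensteinSeries ModularForm MatrixGroups Manifold
open scoped Real Topology
open Filter MvPolynomial

namespace H32.T5

open H32.T3 H32.T4

/-- Integral data for the tuple. -/
lemma exists_orb {m n b : ℕ} {t : Fin m → ℝ} (y : Fin b → ℍ) (c : Fin n → Fin b) (z : Fin n → ℂ)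
    (hz : ∀ i, ∃ A ∈ IntermediateField.adjoin ℚ (Set.range t),
      ∃ B ∈ IntermediateField.adjoin ℚ (Set.range t),
      ∃ C ∈ IntermediateField.adjoin ℚ (Set.range t),
      ∃ D ∈ IntermediateField.adjoin ℚ (Set.range t), 0 < A * D - B * C ∧
        z i = ((A : ℂ) * (y (c i) : ℂ) + (B : ℂ)) / ((C : ℂ) * (y (c i) : ℂ) + (D : ℂ))) :
    ∃ S : Orb m n b, S.t = t ∧ S.y = y ∧ S.c = c ∧ ∀ i, S.φ i S.x = z i := by
  choose A hA B hB C hC D hD hdet hz using hz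
  choose PA QA hQA hPA using fun i ↦ mem_field (hA i)
  choose PB QB hQB hPB using fun i ↦ mem_field (hB i)
  choose PC QC hQC hPC using fun i ↦ mem_field (hC i)
  choose PD QD hQD hPD using fun i ↦ mem_field (hD i)
  have key : ∀ i, 0 < (aeval t (QA i) * aeval t (QB i) * aeval t (QC i) * aeval t (QD i) : ℝ) :=
    fun i ↦ mul_pos (mul_pos (mul_pos (hQA i) (hQB i)) (hQC i)) (hQD i)
  have eA : ∀ i, (aeval t (PA i * QB i * QC i * QD i) : ℝ) =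
      (aeval t (QA i) * aeval t (QB i) * aeval t (QC i) * aeval t (QD i) : ℝ) * A i := fun i ↦ by
    have h0 := (hQA i).ne'
    rw [hPA i]
    simp only [map_mul]
    field_simp
  have eB : ∀ i, (aeval t (PB i * QA i * QC i * QD i) : ℝ) =
      (aeval t (QA i) * aeval t (QB i) * aeval t (QC i) * aeval t (QD i) : ℝ) * B i := fun i ↦ by
    have h0 := (hQB i).ne'
    rw [hPB i]
    simp only [map_mul]
    field_simp
  have eC : ∀ i, (aeval t (PC i * QA i * QB i * QD i) : ℝ) =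
      (aeval t (QA i) * aeval t (QB i) * aeval t (QC i) * aeval t (QD i) : ℝ) * C i := fun i ↦ by
    have h0 := (hQC i).ne'
    rw [hPC i]
    simp only [map_mul]
    field_simp
  have eD : ∀ i, (aeval t (PD i * QA i * QB i * QC i) : ℝ) =
      (aeval t (QA i) * aeval t (QB i) * aeval t (QC i) * aeval t (QD i) : ℝ) * D i := fun i ↦ by
    have h0 := (hQD i).ne'
    rw [hPD i]
    simp only [map_mul]
    field_simp
  refine ⟨Orb.of t (fun i ↦ PA i * QB i * QC i * QD i) (fun i ↦ PB i * QA i * QC i * QD i)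
    (fun i ↦ PC i * QA i * QB i * QD i) (fun i ↦ PD i * QA i * QB i * QC i) y c (fun i ↦ ?_),
    rfl, rfl, rfl, fun i ↦ ?_⟩
  · have h1 : (aeval t (PA i * QB i * QC i * QD i * (PD i * QA i * QB i * QC i) -
        PB i * QA i * QC i * QD i * (PC i * QA i * QB i * QD i)) : ℝ) =
        (aeval t (QA i) * aeval t (QB i) * aeval t (QC i) * aeval t (QD i) : ℝ) ^ 2 *
          (A i * D i - B i * C i) := by
      rw [map_sub, map_mul _ (PA i * QB i * QC i * QD i), map_mul _ (PB i * QA i * QC i * QD i),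
        eA, eB, eC, eD]
      ring
    rw [h1]
    exact mul_pos (pow_pos (key i) 2) (hdet i)
  · have hx : ∀ p : MvPolynomial (Fin m) ℤ, aeval (fun s ↦ ((t s : ℝ) : ℂ)) p =
        ((aeval t p : ℝ) : ℂ) := aeval_ofReal t
    change mob (aeval (fun s ↦ ((t s : ℝ) : ℂ)) _) (aeval (fun s ↦ ((t s : ℝ) : ℂ)) _)
      (aeval (fun s ↦ ((t s : ℝ) : ℂ)) _) (aeval (fun s ↦ ((t s : ℝ) : ℂ)) _) _ = _
    rw [hx, hx, hx, hx]
    simp only
    rw [eA, eB, eC, eD, hz i, mob]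
    set l : ℝ := (aeval t (QA i) * aeval t (QB i) * aeval t (QC i) * aeval t (QD i) : ℝ) with hl
    have hl0 : (l : ℂ) ≠ 0 := by exact_mod_cast (key i).ne'
    push_cast
    rw [show (l : ℂ) * A i * (y (c i) : ℂ) + l * B i = l * (A i * (y (c i) : ℂ) + B i) by ring,
      show (l : ℂ) * C i * (y (c i) : ℂ) + l * D i = l * (C i * (y (c i) : ℂ) + D i) by ring,
      mul_div_mul_left _ _ hl0]

theorem main_Y {E4 E6 J : ℂ → ℂ}
    (h4 : ∀ τ : ℂ, E4 τ = 1 + 240 * ∑' m : ℕ, ((ArithmeticFunction.sigma 3 (m + 1) : ℕ) : ℂ) *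
      Complex.exp (2 * (Real.pi : ℂ) * Complex.I * ((m : ℂ) + 1) * τ))
    (h6 : ∀ τ : ℂ, E6 τ = 1 - 504 * ∑' m : ℕ, ((ArithmeticFunction.sigma 5 (m + 1) : ℕ) : ℂ) *
      Complex.exp (2 * (Real.pi : ℂ) * Complex.I * ((m : ℂ) + 1) * τ))
    (hJ : ∀ τ : ℂ, J τ = 1728 * E4 τ ^ 3 / (E4 τ ^ 3 - E6 τ ^ 2))
    {m n b : ℕ} (t : Fin m → ℝ) (ht : ∀ κ : ℝ, ∀ K : ℕ, ∃ q : ℕ, K ≤ q ∧ ∃ p : Fin m → ℤ,
    (∀ s, 0 < |t s - p s / q| ∧ |t s - p s / q| < Real.exp (-(q : ℝ) ^ κ)) ∧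
    ∀ r s, r ≠ s → |t r - p r / q| < |t s - p s / q| ^ K ∨
      |t s - p s / q| < |t r - p r / q| ^ K)
    (y : Fin (b + 1) → ℂ) (hy : ∀ c, 0 < (y c).im ∧ IsAlgebraic ℚ (J (y c)) ∧ J (y c) ≠ 0 ∧
      J (y c) ≠ 1728)
    (c : Fin n → Fin (b + 1)) (z : Fin n → ℂ)
    (hz : ∀ i, ∃ A ∈ IntermediateField.adjoin ℚ (Set.range t),
      ∃ B ∈ IntermediateField.adjoin ℚ (Set.range t),
      ∃ C ∈ IntermediateField.adjoin ℚ (Set.range t),
      ∃ D ∈ IntermediateField.adjoin ℚ (Set.range t), 0 < A * D - B * C ∧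
        z i = ((A : ℂ) * y (c i) + (B : ℂ)) / ((C : ℂ) * y (c i) + (D : ℂ)))
    (hne : ∀ i, ¬ ∃ a' b' c' d' : ℚ, 0 < a' * d' - b' * c' ∧
      z i = ((a' : ℂ) * y (c i) + (b' : ℂ)) / ((c' : ℂ) * y (c i) + (d' : ℂ)))
    (hrel : ∀ i k, i ≠ k → ¬ ∃ a b c d : ℚ, 0 < a * d - b * c ∧
      z k = ((a : ℂ) * z i + (b : ℂ)) / ((c : ℂ) * z i + (d : ℂ)))
    (B : Finset (Fin (b + 1))) (δ : ℕ)
    (hδ : ∀ (k : ℕ) (h : Fin k → Fin (b + 1) × Fin 3), (∀ j, (h j).1 ∈ B → (h j).2 = 0) →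
      AlgebraicIndependent ℚ (fun j ↦ ![y (h j).1, deriv J (y (h j).1),
        deriv (deriv J) (y (h j).1)] (h j).2) → k ≤ δ)
    (ρ : ℕ) (g : Fin ρ → Fin n ⊕ B)
    (hg : AlgebraicIndependent ℚ (fun k ↦ (Sum.elim z (fun c : B ↦ y c) : Fin n ⊕ B → ℂ) (g k))) :
    ∃ f : Fin (3 * n + 1 + ρ - δ) → (Fin n ⊕ B) × Fin 4, AlgebraicIndependent ℚ (fun k ↦
      ![(Sum.elim z (fun c : B ↦ y c) : Fin n ⊕ B → ℂ) (f k).1,
        J ((Sum.elim z (fun c : B ↦ y c) : Fin n ⊕ B → ℂ) (f k).1),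
        deriv J ((Sum.elim z (fun c : B ↦ y c) : Fin n ⊕ B → ℂ) (f k).1),
        deriv (deriv J) ((Sum.elim z (fun c : B ↦ y c) : Fin n ⊕ B → ℂ) (f k).1)] (f k).2) := by
  classical
  set yH : Fin (b + 1) → ℍ := fun c ↦ ⟨y c, (hy c).1⟩ with hyH
  have hyc : ∀ c, (yH c : ℂ) = y c := fun c ↦ rfl
  obtain ⟨S, rfl, hSy, rfl, hSz⟩ := exists_orb yH c z hz
  have hSyc : ∀ c, (S.y c : ℂ) = y c := fun c ↦ by rw [hSy]
  obtain rfl : (fun i ↦ S.φ i S.x) = z := funext hSz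
  have hJc : ∀ c, J (y c) = jc (y c) := fun c ↦ (J_values h4 h6 hJ (hy c).1).1
  have hJf : ∀ c, J (y c) = jf (S.y c) := fun c ↦ by
    rw [hJc, ← hSyc, jc_coe]
  have y4 : ∀ c, E₄ (S.y c) ≠ 0 := by
    intro c h0
    refine (hy c).2.2.1 ?_
    rw [hJc, ← hSyc]
    exact jc_eq_zero.mpr (by rw [e4, ofComplex_apply]; exact h0)
  have y6 : ∀ c, E₆ (S.y c) ≠ 0 := by
    intro c h0
    refine (hy c).2.2.2 ?_
    rw [hJc, ← hSyc]
    exact jc_eq_1728.mpr (by rw [e6, ofComplex_apply]; exact h0)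
  have hj : ∀ c, IsAlgebraic ℤ (jf (S.y c)) := fun c ↦ by
    rw [← hJf]
    exact (IsFractionRing.isAlgebraic_iff ℤ ℚ ℂ).mpr (hy c).2.1
  have hj' : ∀ c, IsAlgebraic ℚ (J (S.y c)) := fun c ↦ by
    rw [hSyc]
    exact (hy c).2.1
  obtain ⟨hφ, hind⟩ := S.V_indep (shier_of ht) y4 y6 hj (fun i ↦ by rw [hSyc]; exact hne i) hrel 0
  have halgZQ : Algebra.IsAlgebraic ℤ ℚ := IsLocalization.isAlgebraic ℚ (nonZeroDivisors ℤ)
  have hpt : S.pt B = (Sum.elim (fun i ↦ S.φ i S.x) (fun c : B ↦ y c) : Fin n ⊕ B → ℂ) := by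
    ext u
    rcases u with i | c
    · rfl
    · exact hSyc c.1
  have hfin := S.final_Y h4 h6 hJ y4 y6 hj' hφ 0 (hind.extendScalars ℚ) B (δ := δ) (by
    intro k h h1 h2
    refine hδ k h h1 ?_
    simp only [hSyc] at h2
    exact h2) g (by rw [hpt]; exact hg)
  rw [hpt] at hfin
  exact hfin

end H32.T5
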